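import Pool.Agent.Ff2.Stmts

/-!
The algebra modulo 8 and the final contradiction (module COMB, MP_e1dc24_nt).
-/

set_option autoImplicit false

namespace Pool.Agent.Ff2

namespace Comb

/-- `y ^ 2 + y = 1` has no solution with `y ^ (2 ^ k) = y`, `k` odd, in characteristic 2. -/
theorem no_root {E : Type} [Field E] [CharP E 2] {k : ℕ} (hk : Odd k) {y : E}
    (h1 : y ^ 2 + y = 1) (h2 : y ^ (2 ^ k) = y) : False := by
  have htwo : (2 : E) = 0 := CharTwo.two_eq_zero
  have h4 : y ^ 4 = y := by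
    linear_combination (y ^ 2 - y + 2) * h1 + (1 - 2 * y) * htwo
  have hj : ∀ j : ℕ, y ^ (4 ^ j) = y := by
    intro j
    induction j with
    | zero => simp
    | succ j ih => rw [pow_succ, pow_mul, ih, h4]
  obtain ⟨j, rfl⟩ := hk
  rw [pow_succ, pow_mul, pow_mul, show (2 : ℕ) ^ 2 = 4 from rfl, hj] at h2
  have h5 : (1 : E) = 0 := by
    linear_combination (-1 : E) * h1 + h2 + y * htwo
  exact one_ne_zero h5

end Comb

open Comb in
/-- COMB -/
theorem comb : StmtCOMB := by
  intro R K E _ _ _ _ _ _ π hker h2R q k hq hk hfrob a b a' b' u v hu ha ha' hmain z z' ε hz hz'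
    hzq hzq'
  have hE : CharP E 2 := charP_of_injective_algebraMap (algebraMap K E).injective 2
  have h2K : (2 : K) = 0 := CharTwo.two_eq_zero
  have h2E : (2 : E) = 0 := CharTwo.two_eq_zero
  -- modulo 2
  have h1 := congrArg π hmain
  simp only [map_sub, map_add, map_mul, map_pow, map_ofNat] at h1
  have h3 : (π a - π u ^ 2 * π a') ^ 2 = 0 := by
    linear_combination h1 + (2 * π b + 2 * π u ^ 4 * π a' ^ 2 - 10 * π u ^ 4 * π b' + 4 * π v
      - π a * π u ^ 2 * π a' + π u ^ 4 * π a' ^ 2) * h2K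
  have h4 : π a = π u ^ 2 * π a' := sub_eq_zero.mp (pow_eq_zero_iff (two_ne_zero)|>.mp h3)
  have h5 : π (a - u ^ 2 * a') = 0 := by
    rw [map_sub, map_mul, map_pow, h4, sub_self]
  obtain ⟨t, ht⟩ := hker _ h5
  have ht' : a = u ^ 2 * a' + 2 * t := by linear_combination ht
  have h6 : t * u ^ 2 * a' + t ^ 2 - b = u ^ 4 * a' ^ 2 - 5 * u ^ 4 * b' + 2 * v := by
    have h7 : (2 : R) * (2 * (t * u ^ 2 * a' + t ^ 2 - b)) =
        2 * (2 * (u ^ 4 * a' ^ 2 - 5 * u ^ 4 * b' + 2 * v)) := by
      rw [ht'] at hmain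
      linear_combination hmain
    exact mul_left_cancel₀ h2R (mul_left_cancel₀ h2R h7)
  have h8 := congrArg π h6
  simp only [map_sub, map_add, map_mul, map_pow, map_ofNat] at h8
  -- the key identity
  have h9 : π b / π a ^ 2 = 1 + π b' / π a' ^ 2 + π t / π a + (π t / π a) ^ 2 := by
    have h10 : π b' / π a' ^ 2 = π u ^ 4 * π b' / π a ^ 2 := by
      rw [h4]
      field_simp
    rw [h10]
    field_simp
    linear_combination (-1 : K) * h8 - (π t) * h4 - (π a + π u ^ 2 * π a') * h4
      + (2 * π u ^ 4 * π b' - π v - π u ^ 4 * π a' ^ 2) * h2K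
  -- the element `y = z + z' + s`
  have h11 : algebraMap K E (π b / π a ^ 2) = 1 + algebraMap K E (π b' / π a' ^ 2) +
      algebraMap K E (π t / π a) + algebraMap K E (π t / π a) ^ 2 := by
    rw [h9]
    simp only [map_add, map_pow, map_one]
  have h12 : (z + z' + algebraMap K E (π t / π a)) ^ 2 + (z + z' + algebraMap K E (π t / π a)) =
      1 := by
    linear_combination hz + hz' + h11 + (z * z' + z * algebraMap K E (π t / π a) +
      z' * algebraMap K E (π t / π a) + algebraMap K E (π b' / π a' ^ 2) +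
      algebraMap K E (π t / π a) + algebraMap K E (π t / π a) ^ 2) * h2E
  have h13 : (z + z' + algebraMap K E (π t / π a)) ^ (2 ^ k) =
      z + z' + algebraMap K E (π t / π a) := by
    rw [add_pow_char_pow, add_pow_char_pow, ← map_pow, ← hq, hzq, hzq', hfrob]
    linear_combination ε * h2E
  exact no_root hk h12 h13

end Pool.Agent.Ff2
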