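import Pool.Agent.Ff2.Stmts

/-!
Consequence of the lower bound: no exponent below two.
-/

set_option autoImplicit false

namespace Pool.Agent.Ff2

open Polynomial Filter

theorem noExponent (h : StmtFIN) (K : Type) [Field K] [Fintype K] (k : ℕ)
    (hK : Fintype.card K = 2 ^ k) (hk : Odd k) (A : ℝ) (hA : A < 2) (C : ℝ) :
    ∃ m c : K[X], m.Monic ∧ 1 ≤ m.natDegree ∧ IsCoprime c m ∧
      ∀ P : K[X], Irreducible P → m ∣ P - c →
        C * (Fintype.card K : ℝ) ^ m.natDegree *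
          Real.log ((Fintype.card K : ℝ) ^ m.natDegree) ^ A <
            (Fintype.card K : ℝ) ^ P.natDegree := by
  obtain ⟨-, δ, hδ, hB⟩ := h K k hK hk
  set q : ℝ := (Fintype.card K : ℝ) with hq
  have hq2 : (2 : ℝ) ≤ q := by
    have : 2 ≤ Fintype.card K := Fintype.one_lt_card
    rw [hq]; exact_mod_cast this
  have hlog : 0 < Real.log q := Real.log_pos (by linarith)
  have ht : Tendsto (fun n : ℕ => (n : ℝ) ^ (2 - A)) atTop atTop :=
    (tendsto_rpow_atTop (by linarith)).comp tendsto_natCast_atTop_atTop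
  have he := (ht.eventually_gt_atTop (|C| * Real.log q ^ A / δ)).and (eventually_ge_atTop 1)
  obtain ⟨n, hn, hn1⟩ := he.exists
  obtain ⟨m, c, hm, hmn, hc, hP⟩ := hB n hn1
  refine ⟨m, c, hm, hmn ▸ hn1, hc, fun P hPi hPd => ?_⟩
  refine lt_of_lt_of_le ?_ (hP P hPi hPd)
  rw [hmn, Real.log_pow]
  have hn0 : (0 : ℝ) < n := by exact_mod_cast hn1
  have hqn : 0 < q ^ n := by positivity
  rw [div_lt_iff₀ hδ] at hn
  have h1 : (n : ℝ) ^ (2 - A) = (n : ℝ) ^ 2 / (n : ℝ) ^ A := by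
    rw [Real.rpow_sub hn0]; norm_num
  rw [h1] at hn
  have hnA : 0 < (n : ℝ) ^ A := Real.rpow_pos_of_pos hn0 A
  have h2 : |C| * Real.log q ^ A * (n : ℝ) ^ A < δ * (n : ℝ) ^ 2 := by
    have := mul_lt_mul_of_pos_right hn hnA
    calc |C| * Real.log q ^ A * (n : ℝ) ^ A < (n : ℝ) ^ 2 / (n : ℝ) ^ A * δ * (n : ℝ) ^ A := this
      _ = δ * (n : ℝ) ^ 2 := by field_simp
  have h3 : (↑n * Real.log q) ^ A = (n : ℝ) ^ A * Real.log q ^ A :=
    Real.mul_rpow hn0.le hlog.le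
  rw [h3]
  have h4 : C * ((n : ℝ) ^ A * Real.log q ^ A) ≤ |C| * ((n : ℝ) ^ A * Real.log q ^ A) :=
    mul_le_mul_of_nonneg_right (le_abs_self C) (by positivity)
  calc C * q ^ n * ((n : ℝ) ^ A * Real.log q ^ A) = C * ((n : ℝ) ^ A * Real.log q ^ A) * q ^ n := by
        ring
    _ ≤ |C| * ((n : ℝ) ^ A * Real.log q ^ A) * q ^ n :=
        mul_le_mul_of_nonneg_right h4 hqn.le
    _ < δ * (n : ℝ) ^ 2 * q ^ n := by
        refine mul_lt_mul_of_pos_right ?_ hqn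
        calc |C| * ((n : ℝ) ^ A * Real.log q ^ A) = |C| * Real.log q ^ A * (n : ℝ) ^ A := by ring
          _ < _ := h2

end Pool.Agent.Ff2
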