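import Pool.Agent.Ff2.Stmts

/-!
CORE: the irreducible case, from PAR, LIFT, COMB and WITT.
-/

set_option autoImplicit false

namespace Pool.Agent.Ff2

open Polynomial

namespace CoreAux

/-- the parity of `N (N - 1) / 2` for `N = d + 4 e` -/
theorem sign_eq {R : Type} [CommRing R] (d e : ℕ) (hd : 1 ≤ d) :
    ((-1 : R)) ^ ((d + 4 * e) * (d + 4 * e - 1) / 2) = (-1) ^ (d * (d - 1) / 2) := by
  obtain ⟨c, rfl⟩ : ∃ c, d = c + 1 := ⟨d - 1, by omega⟩
  have h1 : (c + 1 + 4 * e) * (c + 1 + 4 * e - 1) / 2 =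
      (c + 1) * (c + 1 - 1) / 2 + 2 * (e * (2 * c + 1 + 4 * e)) := by
    have h2 : (c + 1 + 4 * e) * (c + 1 + 4 * e - 1) =
        (c + 1) * (c + 1 - 1) + 2 * (2 * (e * (2 * c + 1 + 4 * e))) := by
      rw [show c + 1 + 4 * e - 1 = c + 4 * e by omega, show c + 1 - 1 = c by omega]
      ring
    rw [h2, Nat.add_mul_div_left _ _ (by norm_num)]
  rw [h1, pow_add, pow_mul (-1 : R) 2]
  simp

theorem even_iff (d e : ℕ) : Even (d + 4 * e) ↔ Even d := by
  constructor
  · rintro ⟨c, hc⟩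
    exact ⟨c - 2 * e, by omega⟩
  · rintro ⟨c, hc⟩
    exact ⟨c + 2 * e, by omega⟩

/-- natural degree of `p + q` with `q` monic of larger degree -/
theorem monic_add {R : Type} [CommRing R] [Nontrivial R] {p q : R[X]} {N : ℕ} (hq : q.Monic)
    (hN : q.natDegree = N) (hp : p.natDegree < N) :
    (p + q).Monic ∧ (p + q).natDegree = N := by
  have h1 : p.degree < q.degree := by
    rw [degree_eq_natDegree hq.ne_zero, hN]
    exact lt_of_le_of_lt degree_le_natDegree (by exact_mod_cast hp)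
  refine ⟨hq.add_of_right h1, ?_⟩
  rw [natDegree_add_eq_right_of_degree_lt h1, hN]

end CoreAux

open CoreAux in
theorem core (hP : StmtPAR) (hL : StmtLIFT) (hC : StmtCOMB) (hW : StmtWITT) : StmtCORE := by
  intro K _ _ k hk hodd f f₁ g h d e hf hg hfi hd he heo hf₁ hcop hdeg hF
  have hk0 : k ≠ 0 := by
    rintro rfl
    exact (Nat.not_odd_zero hodd)
  have : Fact (Nat.Prime 2) := ⟨Nat.prime_two⟩
  have hchar : CharP K 2 := charP_of_card_eq_prime_pow hk
  have hd1 : 1 ≤ d := by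
    rw [← hd]
    exact hfi.natDegree_pos
  -- degree of the fourth power
  have hdeg1 : ((f₁ * h) ^ 4).natDegree < d + 4 * e := by
    have h1 : (f₁ * h).natDegree ≤ f₁.natDegree + h.natDegree := natDegree_mul_le
    have h2 : ((f₁ * h) ^ 4).natDegree ≤ 4 * (f₁ * h).natDegree := natDegree_pow_le
    have h3 : 2 * f₁.natDegree ≤ d - 1 := by
      rw [← natDegree_pow, ← hf₁, ← hd]
      exact natDegree_derivative_le f
    omega
  have hfg : (f * g ^ 4).Monic := hf.mul (hg.pow 4)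
  have hfgd : (f * g ^ 4).natDegree = d + 4 * e := by
    rw [hf.natDegree_mul (hg.pow 4), hg.natDegree_pow, hd, he]
  obtain ⟨hFm, hFd⟩ := monic_add hfg hfgd hdeg1
  have hFsep : ((f₁ * h) ^ 4 + f * g ^ 4).Separable := PerfectField.separable_of_irreducible hF
  -- the lifts
  obtain ⟨R, _, _, π, hπ, h2R, hker⟩ := hW K
  have hl : ∀ p : K[X], p ∈ lifts π := by
    intro p
    rw [lifts_iff_coeff_lifts]
    intro n
    exact hπ _
  obtain ⟨ff, hff, hffd, hffm⟩ := lifts_and_natDegree_eq_and_monic (hl f) hf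
  obtain ⟨gg, hgg, hggd, hggm⟩ := lifts_and_natDegree_eq_and_monic (hl g) hg
  obtain ⟨hh, hhh, hhhd⟩ := exists_natDegree_eq_of_mem_lifts (hl h)
  have hmap : (derivative ff ^ 2 * hh ^ 4 + ff * gg ^ 4).map π = (f₁ * h) ^ 4 + f * g ^ 4 := by
    rw [Polynomial.map_add, Polynomial.map_mul, Polynomial.map_mul, Polynomial.map_pow,
      Polynomial.map_pow, Polynomial.map_pow, ← derivative_map, hff, hgg, hhh, hf₁]
    ring
  have hcop1 : IsCoprime g f₁ := hcop.of_mul_right_left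
  have hcop2 : IsCoprime g ((f₁ * h) ^ 4 + f * g ^ 4) := by
    have h1 : IsCoprime g ((f₁ * h) ^ 4) := hcop.pow_right
    have h2 : f * g ^ 4 = g * (f * g ^ 3) := by ring
    rw [h2]
    exact h1.add_mul_left_right _
  obtain ⟨u, v, hu, huv⟩ := hL R K π hker ff gg hh d e hd1 hffm hggm (by rw [hffd, hd])
    (by rw [hggd, he]) (by rw [hhhd]; exact hdeg) heo (by rw [hmap]; exact hFsep)
    (by rw [hmap, hgg]; exact hcop2)
    (by rw [hff, hgg, hf₁]; exact hcop1.pow_right)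
  -- the lift of `F`
  set FF := derivative ff ^ 2 * hh ^ 4 + ff * gg ^ 4 with hFF
  have hdeg2 : (derivative ff ^ 2 * hh ^ 4).natDegree < d + 4 * e := by
    have h1 : (derivative ff).natDegree ≤ d - 1 := by
      rw [← hd, ← hffd]
      exact natDegree_derivative_le ff
    have h2 : (derivative ff ^ 2).natDegree ≤ 2 * (derivative ff).natDegree := natDegree_pow_le
    have h3 : (hh ^ 4).natDegree ≤ 4 * hh.natDegree := natDegree_pow_le
    have h4 : (derivative ff ^ 2 * hh ^ 4).natDegree ≤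
      (derivative ff ^ 2).natDegree + (hh ^ 4).natDegree := natDegree_mul_le
    rw [hhhd] at h3
    omega
  have hfgm : (ff * gg ^ 4).Monic := hffm.mul (hggm.pow 4)
  have hfgmd : (ff * gg ^ 4).natDegree = d + 4 * e := by
    rw [hffm.natDegree_mul (hggm.pow 4), hggm.natDegree_pow, hffd, hggd, hd, he]
  obtain ⟨hFFm, hFFd⟩ := monic_add hfgm hfgmd hdeg2
  rw [← hFF] at hFFm hFFd
  have hr1 := resultant_deriv_domain FF hFFm
  have hr2 := resultant_deriv_domain ff hffm
  rw [hFFd] at hr1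
  rw [hffd, hd] at hr2
  rw [hr1, hr2, sign_eq d e hd1] at huv
  -- parity data
  obtain ⟨hA, z, hz1, hz2⟩ := hP K (AlgebraicClosure K) ((f₁ * h) ^ 4 + f * g ^ 4) (d + 4 * e)
    hFm hF hFd
  obtain ⟨hA', z', hz1', hz2'⟩ := hP K (AlgebraicClosure K) f d hf hfi hd
  have ha : π (alp (d + 4 * e) FF) = alp (d + 4 * e) ((f₁ * h) ^ 4 + f * g ^ 4) := by
    rw [map_alp, hmap]
  have hb : π (bet (d + 4 * e) FF) = bet (d + 4 * e) ((f₁ * h) ^ 4 + f * g ^ 4) := by
    rw [map_bet, hmap]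
  have ha' : π (alp d ff) = alp d f := by rw [map_alp, hff]
  have hb' : π (bet d ff) = bet d f := by rw [map_bet, hff]
  have hsq : ((-1 : R) ^ (d * (d - 1) / 2)) * ((-1 : R) ^ (d * (d - 1) / 2)) = 1 := by
    rw [← pow_add, ← two_mul, pow_mul]
    simp
  have heq : alp (d + 4 * e) FF ^ 2 - 4 * bet (d + 4 * e) FF =
      5 * u ^ 4 * (alp d ff ^ 2 - 4 * bet d ff) + 8 * ((-1 : R) ^ (d * (d - 1) / 2) * v) := by
    set s : R := (-1 : R) ^ (d * (d - 1) / 2) with hs
    calc alp (d + 4 * e) FF ^ 2 - 4 * bet (d + 4 * e) FF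
        = (s * s) * (alp (d + 4 * e) FF ^ 2 - 4 * bet (d + 4 * e) FF) := by rw [hsq, one_mul]
      _ = s * (s * (alp (d + 4 * e) FF ^ 2 - 4 * bet (d + 4 * e) FF)) := by ring
      _ = s * (5 * u ^ 4 * (s * (alp d ff ^ 2 - 4 * bet d ff)) + 8 * v) := by rw [huv]
      _ = (s * s) * (5 * u ^ 4 * (alp d ff ^ 2 - 4 * bet d ff)) + 8 * (s * v) := by ring
      _ = _ := by rw [hsq, one_mul]
  refine hC R K (AlgebraicClosure K) π hker h2R (Fintype.card K) k hk hodd
    (fun x => FiniteField.pow_card x) (alp (d + 4 * e) FF) (bet (d + 4 * e) FF) (alp d ff)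
    (bet d ff) u ((-1 : R) ^ (d * (d - 1) / 2) * v) hu (by rw [ha]; exact hA)
    (by rw [ha']; exact hA') heq z z' (if Even d then 1 else 0) (by rw [ha, hb]; exact hz1)
    (by rw [ha', hb']; exact hz1') ?_ hz2'
  rw [hz2]
  simp only [even_iff]

end Pool.Agent.Ff2
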