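import Pool.Agent.Ff2.Stmts

/-! # DEG: the degree of `wL` -/

set_option autoImplicit false

namespace Pool.Agent.Ff2

open Polynomial

theorem deg_factor (K : Type) [Field K] [Fintype K] (i : ℕ) :
    (X ^ (Fintype.card K ^ (i + 1)) - X : K[X]).Monic ∧
      (X ^ (Fintype.card K ^ (i + 1)) - X : K[X]).natDegree = Fintype.card K ^ (i + 1) := by
  have h1 : 1 < Fintype.card K ^ (i + 1) := Nat.one_lt_pow (Nat.succ_ne_zero i) Fintype.one_lt_card
  have h2 : (X : K[X]).degree < ((Fintype.card K ^ (i + 1) : ℕ) : WithBot ℕ) := by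
    rw [degree_X]
    exact_mod_cast h1
  refine ⟨monic_X_pow_sub (by
    rw [degree_X]
    exact_mod_cast Nat.succ_le_of_lt h1), ?_⟩
  rw [natDegree_sub_eq_left_of_natDegree_lt]
  · exact natDegree_X_pow _
  · rw [natDegree_X, natDegree_X_pow]
    exact h1

theorem deg : StmtDEG := by
  intro K _ _ L
  have hm : (wL K L).Monic := monic_prod_of_monic _ _ fun i _ => (deg_factor K i).1
  refine ⟨hm, ?_⟩
  have hd : (wL K L).natDegree = ∑ i ∈ Finset.range L, Fintype.card K ^ (i + 1) := by
    unfold wL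
    rw [natDegree_prod_of_monic _ _ fun i _ => (deg_factor K i).1]
    exact Finset.sum_congr rfl fun i _ => (deg_factor K i).2
  rw [hd]
  clear hd hm
  obtain ⟨r, hr⟩ : ∃ r, Fintype.card K = r + 1 :=
    ⟨Fintype.card K - 1, by have := Fintype.one_lt_card (α := K); omega⟩
  rw [hr, Nat.add_sub_cancel]
  induction L with
  | zero => simp
  | succ L ih =>
    rw [Finset.sum_range_succ, add_mul, add_right_comm, ih]
    ring

end Pool.Agent.Ff2
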