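import Pool.Agent.Ff2.Sym

/-!
The resultant of a monic polynomial and its derivative.
-/

set_option autoImplicit false

namespace Pool.Agent.Ff2

open Polynomial Finset

section A

variable {S : Type*} [CommRing S] [Nontrivial S] {N : ℕ}

theorem natDegree_prodX (s : Fin N → S) : (∏ j : Fin N, (X - C (s j))).natDegree = N := by
  simp

theorem resultant_prodX (s : Fin N → S) (g : S[X]) (n : ℕ) (hg : g.natDegree ≤ n) :
    resultant (∏ j : Fin N, (X - C (s j))) g N n = ∏ j : Fin N, g.eval (s j) := by
  have h := resultant_prod_left (Finset.univ : Finset (Fin N)) (fun j => X - C (s j)) g n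
    (by simp) hg
  rw [natDegree_prodX] at h
  rw [h]
  refine Finset.prod_congr rfl fun j _ => ?_
  rw [natDegree_X_sub_C, resultant_X_sub_C_left _ _ _ hg]

omit [Nontrivial S] in
theorem eval_deriv_prodX (s : Fin N → S) (i : Fin N) :
    (derivative (∏ j : Fin N, (X - C (s j)))).eval (s i) = ∏ j ∈ {i}ᶜ, (s i - s j) := by
  classical
  have h := Lagrange.eval_nodal_derivative_eval_node_eq (s := (Finset.univ : Finset (Fin N)))
    (v := s) (i := i) (Finset.mem_univ i)
  rw [Lagrange.nodal_eq] at h
  rw [h, Lagrange.eval_nodal]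
  congr 1
  ext j
  simp

omit [Nontrivial S] in
theorem prod_off_diag (s : Fin N → S) :
    ∏ i : Fin N, ∏ j ∈ ({i}ᶜ : Finset (Fin N)), (s i - s j) =
      (-1) ^ (N * (N - 1) / 2) * (∏ i : Fin N, ∏ j ∈ Finset.Ioi i, (s j - s i)) ^ 2 := by
  classical
  rw [← Finset.prod_prod_Ioi_mul_eq_prod_prod_off_diag (fun j i => s i - s j)]
  have h1 : ∀ i j : Fin N, (s i - s j) * (s j - s i) = (-1) * (s j - s i) ^ 2 := by
    intro i j; ring
  simp only [h1, Finset.prod_mul_distrib, Finset.prod_pow, Finset.prod_const]
  congr 1
  rw [Finset.prod_pow_eq_pow_sum]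
  congr 1
  simp only [Fin.card_Ioi]
  rw [Fin.sum_univ_eq_sum_range (fun i => N - 1 - i) N, Finset.sum_range_reflect (fun i => i) N,
    Finset.sum_range_id]

theorem resultant_deriv_prodX (s : Fin N → S) :
    resultant (∏ j : Fin N, (X - C (s j))) (derivative (∏ j : Fin N, (X - C (s j)))) N (N - 1) =
      (-1) ^ (N * (N - 1) / 2) * (alp N (∏ j : Fin N, (X - C (s j))) ^ 2 -
        4 * bet N (∏ j : Fin N, (X - C (s j)))) := by
  rw [alp_sq_sub, ← prod_off_diag, resultant_prodX]
  · exact Finset.prod_congr rfl fun i _ => eval_deriv_prodX s i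
  · refine (natDegree_derivative_le _).trans ?_
    rw [natDegree_prodX]

end A

/-- a monic split polynomial is a product over `Fin N` -/
theorem exists_prodX {E : Type*} [Field E] [IsAlgClosed E] (p : E[X]) (hp : p.Monic)
    (N : ℕ) (hN : p.natDegree = N) :
    ∃ s : Fin N → E, p = ∏ j : Fin N, (X - C (s j)) := by
  subst hN
  have hs : p.Splits := IsAlgClosed.splits p
  have hc : p.roots.toList.length = p.natDegree := by
    rw [Multiset.length_toList, hs.natDegree_eq_card_roots]
  refine ⟨fun j => p.roots.toList.get (j.cast hc.symm), ?_⟩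
  have h1 : (p.roots.map fun a => X - C a).prod = p := by
    have := hs.eq_prod_roots
    rw [hp.leadingCoeff, C_1, one_mul] at this
    exact this.symm
  have h2 : (p.roots.toList.map fun a => X - C a).prod = p := by
    conv_rhs => rw [← h1]
    conv_rhs => rw [← Multiset.coe_toList p.roots]
    rw [Multiset.map_coe, Multiset.prod_coe]
  conv_lhs => rw [← h2]
  rw [← Fin.prod_univ_fun_getElem]
  refine (Fintype.prod_equiv (finCongr hc.symm) _ _ fun j => ?_).symm
  simp

/-- resultant with the derivative, over a domain -/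
theorem resultant_deriv_domain {R : Type*} [CommRing R] [IsDomain R] (p : R[X]) (hp : p.Monic) :
    resultant p (derivative p) p.natDegree (p.natDegree - 1) =
      (-1) ^ (p.natDegree * (p.natDegree - 1) / 2) *
        (alp p.natDegree p ^ 2 - 4 * bet p.natDegree p) := by
  set E := AlgebraicClosure (FractionRing R)
  set ι : R →+* E := (algebraMap (FractionRing R) E).comp (algebraMap R (FractionRing R)) with hι
  have hinj : Function.Injective ι :=
    (algebraMap (FractionRing R) E).injective.comp (IsFractionRing.injective R (FractionRing R))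
  apply hinj
  have hd : (p.map ι).natDegree = p.natDegree := natDegree_map_eq_of_injective hinj p
  obtain ⟨s, hs⟩ := exists_prodX (p.map ι) (hp.map ι) p.natDegree hd
  have h := resultant_deriv_prodX s
  rw [← hs] at h
  rw [derivative_map, resultant_map_map] at h
  rw [h]
  simp only [map_mul, map_pow, map_neg, map_one, map_sub, map_alp, map_bet, map_ofNat]

end Pool.Agent.Ff2
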