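import Pool.Agent.Ff2.Stmts

/-!
Module EUL: the first order term of the resultant.
-/

set_option autoImplicit false

namespace Pool.Agent.Ff2

open Polynomial Finset

theorem coeff_one_prod_lin {E : Type*} [Field E] {N : ℕ} (a b : Fin N → E) (ha : ∀ j, a j ≠ 0) :
    (∏ j : Fin N, (C (a j) + X * C (b j))).coeff 1 = (∏ j : Fin N, a j) * ∑ j : Fin N, b j / a j := by
  classical
  have h1 : ∀ P : E[X], P.coeff 1 = (derivative P).eval 0 := by
    intro P
    rw [← coeff_zero_eq_eval_zero, coeff_derivative]
    simp
  rw [h1, derivative_prod_finset, eval_finsetSum, Finset.mul_sum]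
  refine Finset.sum_congr rfl fun j _ => ?_
  rw [eval_mul, eval_prod]
  have h2 : (derivative (C (a j) + X * C (b j))).eval 0 = b j := by
    simp
  rw [h2]
  have h3 : ∀ i, (C (a i) + X * C (b i) : E[X]).eval 0 = a i := by
    intro i
    simp
  simp only [h3]
  rw [← Finset.mul_prod_erase Finset.univ a (Finset.mem_univ j)]
  field_simp [ha j]

/-- MODULE EUL -/
theorem eul : StmtEUL := by
  classical
  intro K _ F V N hN hF hFN hsep hV
  set E := AlgebraicClosure K with hE
  set ι : K →+* E := algebraMap K E with hι
  have hinj : Function.Injective ι := ι.injective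
  apply hinj
  have hd : (F.map ι).natDegree = N := by
    rw [natDegree_map_eq_of_injective hinj, hFN]
  obtain ⟨s, hs⟩ := exists_prodX (F.map ι) (hF.map ι) N hd
  -- distinct roots
  have hsepι : (F.map ι).Separable := hsep.map
  have hsinj : Function.Injective s := by
    have h0 := hsepι
    rw [hs] at h0
    exact separable_prod_X_sub_C_iff.1 h0
  set a : Fin N → E := fun j => (derivative (F.map ι)).eval (s j) with ha
  set b : Fin N → E := fun j => (V.map ι).eval (s j) with hb
  have hae : ∀ j, a j = ∏ i ∈ Finset.univ.erase j, (s j - s i) := by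
    intro j
    have h1 := eval_deriv_prodX s j
    rw [← hs] at h1
    rw [ha]
    show (derivative (F.map ι)).eval (s j) = _
    rw [h1]
    refine Finset.prod_congr ?_ fun _ _ => rfl
    ext i
    simp
  have ha0 : ∀ j, a j ≠ 0 := by
    intro j
    rw [hae j, Finset.prod_ne_zero_iff]
    intro i hi
    rw [sub_ne_zero]
    intro h
    exact (Finset.ne_of_mem_erase hi) (hsinj h).symm
  -- the left hand side
  have hL : ι ((resultant (F.map C) ((derivative F).map C + C (X : K[X]) * V.map C) N
      (N - 1)).coeff 1) = (∏ j : Fin N, a j) * ∑ j : Fin N, b j / a j := by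
    rw [← coeff_one_prod_lin a b ha0, ← coeff_map]
    have h1 : (resultant (F.map C) ((derivative F).map C + C (X : K[X]) * V.map C) N
        (N - 1)).map ι = resultant ((F.map C).map (mapRingHom ι))
          (((derivative F).map C + C (X : K[X]) * V.map C).map (mapRingHom ι)) N (N - 1) := by
      rw [resultant_map_map]
      rfl
    rw [h1]
    have hcomp : (mapRingHom ι).comp (C : K →+* K[X]) = (C : E →+* E[X]).comp ι := by
      ext x
      simp
    have h2 : (F.map C).map (mapRingHom ι) = ∏ j : Fin N, (X - C (C (s j))) := by
      rw [Polynomial.map_map, hcomp, ← Polynomial.map_map, hs, Polynomial.map_prod]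
      simp
    have h3 : ((derivative F).map C + C (X : K[X]) * V.map C).map (mapRingHom ι) =
        (derivative (F.map ι)).map C + C (X : E[X]) * (V.map ι).map C := by
      rw [Polynomial.map_add, Polynomial.map_mul, Polynomial.map_map, Polynomial.map_map, hcomp, ← Polynomial.map_map, ← Polynomial.map_map,
        derivative_map]
      simp
    rw [h2, h3, resultant_prodX (fun j => C (s j))]
    · congr 1
      refine Finset.prod_congr rfl fun j _ => ?_
      rw [eval_add, eval_mul, eval_C, eval_map, eval_map, eval₂_at_apply, eval₂_at_apply]
    · refine (natDegree_add_le _ _).trans (max_le ?_ ?_)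
      · refine natDegree_map_le.trans ((natDegree_derivative_le _).trans ?_)
        rw [hd]
      · refine (natDegree_C_mul_le _ _).trans (natDegree_map_le.trans (natDegree_map_le.trans hV))
  -- the right hand side
  have hR : ι (resultant F (derivative F) N (N - 1)) = ∏ j : Fin N, a j := by
    rw [← resultant_map_map, ← derivative_map]
    have h1 := resultant_prodX s (derivative (F.map ι)) (N - 1) (by
      refine (natDegree_derivative_le _).trans ?_
      rw [hd])
    rw [← hs] at h1
    exact h1
  have hVc : ι (V.coeff (N - 1)) = ∑ j : Fin N, b j / a j := by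
    rw [← coeff_map]
    have h1 := Lagrange.coeff_eq_sum (s := (Finset.univ : Finset (Fin N))) (v := s)
      hsinj.injOn (P := V.map ι) (by
        rw [Finset.card_univ, Fintype.card_fin]
        refine degree_le_natDegree.trans_lt ?_
        have h2 : (V.map ι).natDegree ≤ N - 1 := natDegree_map_le.trans hV
        exact_mod_cast (by omega : (V.map ι).natDegree < N))
    rw [Finset.card_univ, Fintype.card_fin] at h1
    rw [h1]
    refine Finset.sum_congr rfl fun j _ => ?_
    rw [hae j]
  rw [hL, map_mul, hR, hVc]

end Pool.Agent.Ff2
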