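import Pool.Agent.Ff2.Stmts

/-!
EXP: the resultant modulo 8.
-/

set_option autoImplicit false

namespace Pool.Agent.Ff2

open Polynomial

namespace EXPaux

/-- second order expansion of the value of a polynomial -/
theorem eval_expand {R : Type*} [CommRing R] (H : R[X]) (x : R) :
    ∃ w : R, H.eval x = H.eval 0 + x * H.coeff 1 + x ^ 2 * w := by
  refine ⟨H.divX.divX.eval x, ?_⟩
  have h1 : H = H.divX * X + C (H.coeff 0) := (divX_mul_X_add H).symm
  have h2 : H.divX = H.divX.divX * X + C (H.divX.coeff 0) := (divX_mul_X_add H.divX).symm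
  have h3 : H.divX.coeff 0 = H.coeff 1 := by rw [coeff_divX]
  have e1 : H.eval x = H.divX.eval x * x + H.coeff 0 := by
    conv_lhs => rw [h1]
    simp
  have e2 : H.divX.eval x = H.divX.divX.eval x * x + H.coeff 1 := by
    conv_lhs => rw [h2]
    rw [h3]
    simp
  have e3 : H.eval 0 = H.coeff 0 := (coeff_zero_eq_eval_zero H).symm
  rw [e1, e2, e3]
  ring

theorem map_C_map {R S : Type*} [CommRing R] [CommRing S] (φ : R[X] →+* S) (ψ : R →+* S)
    (h : φ.comp C = ψ) (F : R[X]) : (F.map (C : R →+* R[X])).map φ = F.map ψ := by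
  rw [map_map, h]

end EXPaux

open EXPaux in
/-- EXP: resultant modulo 8 -/
theorem exp (h : StmtEUL) : StmtEXP := by
  intro R K _ _ _ _ π hπ F G V N hN hF hFN hG hV hder hsep
  set H : R[X] := resultant (F.map C) (G.map C + C (X : R[X]) * V.map C) N (N - 1) with hH
  -- values of `H`
  have hval : ∀ c : R, H.eval c = resultant F (G + C c * V) N (N - 1) := by
    intro c
    have e1 : (evalRingHom c).comp (C : R →+* R[X]) = RingHom.id R := by
      ext x; simp
    have e2 : (F.map (C : R →+* R[X])).map (evalRingHom c) = F := by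
      rw [map_C_map _ _ e1, map_id]
    have e3 : (G.map (C : R →+* R[X]) + C (X : R[X]) * V.map C).map (evalRingHom c) =
        G + C c * V := by
      rw [Polynomial.map_add, Polynomial.map_mul, map_C_map _ _ e1, map_C_map _ _ e1, map_id,
        map_id, Polynomial.map_C]
      simp
    have e4 : H.eval c = evalRingHom c H := rfl
    rw [e4, hH, ← resultant_map_map, e2, e3]
  have h0 : H.eval 0 = resultant F G N (N - 1) := by
    have e : G + C 0 * V = G := by rw [C_0, zero_mul, add_zero]
    rw [hval 0, e]
  have h4 : H.eval 4 = resultant F (derivative F) N (N - 1) := by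
    have e : (C (4 : R) : R[X]) = 4 := map_ofNat C 4
    rw [hval 4, hder, e]
  obtain ⟨w, hw⟩ := eval_expand H 4
  -- the first coefficient modulo `2`
  have hK4 : (4 : K) = 0 := by
    have : (2 : K) = 0 := CharTwo.two_eq_zero
    calc (4 : K) = 2 * 2 := by norm_num
      _ = 0 := by rw [this]; ring
  have hFm : (F.map π).Monic := hF.map π
  have hFmN : (F.map π).natDegree = N := by rw [hF.natDegree_map, hFN]
  have hVm : (V.map π).natDegree ≤ N - 1 := natDegree_map_le.trans hV
  have hderm : derivative (F.map π) = G.map π := by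
    rw [derivative_map, hder, Polynomial.map_add, Polynomial.map_mul]
    have : (4 : R[X]).map π = 0 := by
      have e : (C (4 : R) : R[X]) = 4 := map_ofNat C 4
      rw [← e, Polynomial.map_C]
      have : π 4 = 4 := map_ofNat π 4
      rw [this, hK4, C_0]
    rw [this, zero_mul, add_zero]
  have heul := h K (F.map π) (V.map π) N hN hFm hFmN hsep hVm
  rw [hderm] at heul
  have hcoef : π (H.coeff 1) = π (resultant F G N (N - 1) * V.coeff (N - 1)) := by
    have e1 : (mapRingHom π).comp (C : R →+* R[X]) = (C : K →+* K[X]).comp π := by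
      ext x; simp
    have e2 : ∀ P : R[X], (P.map (C : R →+* R[X])).map (mapRingHom π) = (P.map π).map C := by
      intro P
      rw [map_C_map _ _ e1, ← map_map]
    have e3 : (G.map (C : R →+* R[X]) + C (X : R[X]) * V.map C).map (mapRingHom π) =
        (G.map π).map C + C (X : K[X]) * (V.map π).map C := by
      rw [Polynomial.map_add, Polynomial.map_mul, e2, e2, Polynomial.map_C]
      simp
    have e4 : H.map π = mapRingHom π H := rfl
    have e5 : H.map π = resultant ((F.map π).map C)
        ((G.map π).map C + C (X : K[X]) * (V.map π).map C) N (N - 1) := by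
      rw [e4, hH, ← resultant_map_map, e2, e3]
    rw [← coeff_map, e5, heul, resultant_map_map, coeff_map, ← map_mul]
  obtain ⟨y, hy⟩ := hπ (H.coeff 1 - resultant F G N (N - 1) * V.coeff (N - 1)) (by
    rw [map_sub, hcoef, sub_self])
  refine ⟨y + 2 * w, ?_⟩
  rw [← h4, hw, h0, eq_add_of_sub_eq hy]
  ring

end Pool.Agent.Ff2
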