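import Pool.Agent.Ff2.Stmts

/-!
FIN: the final theorem, from RED and DEG.
-/

set_option autoImplicit false

namespace Pool.Agent.Ff2

open Polynomial

namespace FinP

variable {K : Type} [Field K] [Fintype K]

theorem key (hR : StmtRED) (hD : StmtDEG) (k : ℕ) (hk : Fintype.card K = 2 ^ k) (hko : Odd k)
    (L : ℕ) (g : K[X]) (hL : 1 ≤ L) (hg : g.Monic) (hgo : Odd g.natDegree)
    (hc : IsCoprime g (wL K L)) (hd : (wL K L).natDegree + L + 1 ≤ g.natDegree)
    (P : K[X]) (hP : Irreducible P) (hdv : g ^ 4 ∣ P - wL K L ^ 4) :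
    2 * L + 2 + 4 * g.natDegree ≤ P.natDegree := by
  obtain ⟨f, hf⟩ := hdv
  have hPe : P = wL K L ^ 4 + f * g ^ 4 := by
    rw [mul_comm f, ← hf]
    ring
  have h1 := hR K k hk hko L g hL hg hgo hc hd f
  have h2 : 2 * L + 2 ≤ f.natDegree := by
    by_contra h3
    exact h1 (by omega) (hPe ▸ hP)
  have hf0 : f ≠ 0 := by
    rintro rfl
    rw [natDegree_zero] at h2
    omega
  have h3 : (f * g ^ 4).natDegree = f.natDegree + 4 * g.natDegree := by
    rw [natDegree_mul hf0 (hg.pow 4).ne_zero, hg.natDegree_pow]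
  have h4 : (wL K L ^ 4).natDegree = 4 * (wL K L).natDegree := (hD K L).1.natDegree_pow 4
  rw [hPe, natDegree_add_eq_right_of_natDegree_lt (by omega), h3]
  omega

theorem even_deg (hD : StmtDEG) (k : ℕ) (hk : Fintype.card K = 2 ^ k) (hko : Odd k) (L : ℕ) :
    Even (wL K L).natDegree := by
  have h1 := (hD K L).2
  have h2 : Even (Fintype.card K) := by
    rw [hk]
    exact (Nat.even_pow.2 ⟨even_two, hko.pos.ne'⟩)
  have h0 : 1 ≤ Fintype.card K := Fintype.card_pos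
  have h3 : Even (Fintype.card K ^ (L + 1)) := Nat.even_pow.2 ⟨h2, by omega⟩
  rw [← h1, Nat.even_add] at h3
  have h4 := h3.2 h2
  rw [Nat.even_mul] at h4
  rcases h4 with h4 | h4
  · exact h4
  · exfalso
    rw [Nat.even_sub h0] at h4
    have h5 := h4.1 h2
    exact absurd h5 (by decide)

theorem mon (hD : StmtDEG) (L a : ℕ) (ha : 1 ≤ a) :
    (X ^ a * wL K L + 1 : K[X]).Monic ∧
      (X ^ a * wL K L + 1 : K[X]).natDegree = a + (wL K L).natDegree ∧
      IsCoprime (X ^ a * wL K L + 1 : K[X]) (wL K L) := by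
  have hw := (hD K L).1
  have h1 : (X ^ a * wL K L : K[X]).Monic := (monic_X_pow a).mul hw
  have h2 : (X ^ a * wL K L : K[X]).natDegree = a + (wL K L).natDegree := by
    rw [(monic_X_pow a).natDegree_mul hw, natDegree_X_pow]
  have h3 : (1 : K[X]).natDegree < (X ^ a * wL K L : K[X]).natDegree := by
    rw [natDegree_one, h2]
    omega
  refine ⟨?_, ?_, ⟨1, -X ^ a, by ring⟩⟩
  · refine h1.add_of_left ?_
    rw [degree_one, degree_eq_natDegree h1.ne_zero, h2]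
    exact_mod_cast (by omega : 0 < a + (wL K L).natDegree)
  · rw [natDegree_add_eq_left_of_natDegree_lt h3, h2]

theorem wL_eval (L : ℕ) (hL : 1 ≤ L) : (wL K L).eval 0 = 0 := by
  have h0 : 1 ≤ Fintype.card K := Fintype.card_pos
  unfold wL
  rw [eval_prod]
  refine Finset.prod_eq_zero (Finset.mem_range.2 hL) ?_
  rw [eval_sub, eval_pow, eval_X, sub_zero]
  exact zero_pow (pow_pos h0 _).ne'

theorem card_two (k : ℕ) (hk : Fintype.card K = 2 ^ k) (hko : Odd k) : 2 ≤ Fintype.card K := by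
  rw [hk]
  calc 2 = 2 ^ 1 := rfl
    _ ≤ 2 ^ k := Nat.pow_le_pow_right (by norm_num) hko.pos

/-- the first part -/
theorem partA (hR : StmtRED) (hD : StmtDEG) (k : ℕ) (hk : Fintype.card K = 2 ^ k) (hko : Odd k)
    (ε : ℝ) (hε : 0 < ε) (B : ℕ) : ∃ m c : K[X], m.Monic ∧ B ≤ m.natDegree ∧ IsCoprime c m ∧
      ∀ P : K[X], Irreducible P → m ∣ P - c →
        (1 - ε) * (((Fintype.card K : ℝ) - 1) / 4) ^ 2 * (m.natDegree : ℝ) ^ 2 *
          (Fintype.card K : ℝ) ^ m.natDegree ≤ (Fintype.card K : ℝ) ^ P.natDegree := by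
  have hq := card_two k hk hko
  obtain ⟨M, hM1, hM2, hM3⟩ : ∃ M : ℕ, 6 / ε ≤ M ∧ B ≤ M ∧ 1 ≤ M := by
    refine ⟨max (⌈6 / ε⌉₊) (max B 1), ?_, ?_, ?_⟩
    · exact (Nat.le_ceil _).trans (by exact_mod_cast le_max_left _ _)
    · exact (le_max_left _ _).trans (le_max_right _ _)
    · exact (le_max_right _ _).trans (le_max_right _ _)
  obtain ⟨L, hL⟩ : ∃ L, L = 2 * M := ⟨_, rfl⟩
  obtain ⟨h1, h2, h3⟩ := mon (K := K) hD L (L + 1) (by omega)
  have h4 := even_deg (K := K) hD k hk hko L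
  generalize hg : (X ^ (L + 1) * wL K L + 1 : K[X]) = g at h1 h2 h3
  have h5 : Odd g.natDegree := by
    rw [h2]
    exact Odd.add_even ⟨M, by omega⟩ h4
  have h6 : (g ^ 4).natDegree = 4 * g.natDegree := h1.natDegree_pow 4
  refine ⟨g ^ 4, wL K L ^ 4, h1.pow 4, by omega, (h3.symm.pow), ?_⟩
  intro P hP hdv
  have h7 := key hR hD k hk hko L g (by omega) h1 h5 h3 (by omega) P hP hdv
  have hDL := (hD K L).2
  rw [h6]
  generalize (wL K L).natDegree = D at *
  generalize Fintype.card K = q at *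
  have hq' : (2 : ℝ) ≤ q := by exact_mod_cast hq
  have hDL' : (D : ℝ) * (q - 1) + q = (q : ℝ) ^ (L + 1) := by
    have : ((q - 1 : ℕ) : ℝ) = (q : ℝ) - 1 := by
      rw [Nat.cast_sub (by omega), Nat.cast_one]
    rw [← this]
    exact_mod_cast hDL
  have h8 : (q : ℝ) ^ (2 * L + 2 + 4 * g.natDegree) ≤ (q : ℝ) ^ P.natDegree :=
    pow_le_pow_right₀ (by linarith) h7
  refine le_trans ?_ h8
  have h9 : (q : ℝ) ^ (2 * L + 2 + 4 * g.natDegree) =
      ((q : ℝ) ^ (L + 1)) ^ 2 * (q : ℝ) ^ (4 * g.natDegree) := by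
    rw [← pow_mul, ← pow_add]
    congr 1
    ring
  rw [h9]
  refine mul_le_mul_of_nonneg_right ?_ (by positivity)
  have h10 : (((4 * g.natDegree : ℕ) : ℝ)) = 4 * ((L : ℝ) + 1 + D) := by
    rw [h2]
    push_cast
    ring
  have h11 : (1 - ε) * (((q : ℝ) - 1) / 4) ^ 2 * (((4 * g.natDegree : ℕ) : ℝ)) ^ 2 =
      (1 - ε) * ((q : ℝ) ^ (L + 1) - q + (q - 1) * (L + 1)) ^ 2 := by
    rw [h10, ← hDL']
    ring
  rw [h11]
  have h12 : ((q : ℝ) - 1) * (L + 1) ≤ ε / 3 * (q : ℝ) ^ (L + 1) := by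
    have e1 : ((M : ℝ) + 1) ≤ 2 ^ M := by
      have : M + 1 ≤ 2 ^ M := Nat.lt_two_pow_self
      exact_mod_cast this
    have e2 : ((M : ℝ) + 1) ^ 2 ≤ (q : ℝ) ^ L := by
      calc ((M : ℝ) + 1) ^ 2 ≤ (2 ^ M) ^ 2 := pow_le_pow_left₀ (by positivity) e1 2
        _ = (2 : ℝ) ^ L := by rw [← pow_mul, hL, mul_comm]
        _ ≤ (q : ℝ) ^ L := pow_le_pow_left₀ (by norm_num) hq' L
    have e3 : (L : ℝ) + 1 ≤ ε / 3 * (q : ℝ) ^ L := by
      have e4 : 6 ≤ ε * ((M : ℝ) + 1) := by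
        have := (div_le_iff₀ hε).1 hM1
        nlinarith
      have e5 : ε / 3 * ((M : ℝ) + 1) ^ 2 ≤ ε / 3 * (q : ℝ) ^ L :=
        mul_le_mul_of_nonneg_left e2 (by positivity)
      have e6 : (L : ℝ) = 2 * M := by rw [hL]; push_cast; ring
      rw [e6]
      nlinarith
    calc ((q : ℝ) - 1) * (L + 1) ≤ (q : ℝ) * (ε / 3 * (q : ℝ) ^ L) :=
          mul_le_mul (by linarith) e3 (by positivity) (by positivity)
      _ = ε / 3 * (q : ℝ) ^ (L + 1) := by ring
  have hx : 0 < (q : ℝ) ^ (L + 1) := by positivity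
  generalize (q : ℝ) ^ (L + 1) = x at *
  have hy0 : 0 ≤ x - q + (q - 1) * (L + 1) := by
    rw [← hDL']
    have : 0 ≤ (D : ℝ) * ((q : ℝ) - 1) := mul_nonneg (by positivity) (by linarith)
    have : 0 ≤ ((q : ℝ) - 1) * ((L : ℝ) + 1) := mul_nonneg (by linarith) (by positivity)
    linarith
  have hy1 : x - q + (q - 1) * (L + 1) ≤ x * (1 + ε / 3) := by linarith
  generalize x - q + (q - 1) * (L + 1) = y at *
  rcases le_or_gt 1 ε with h | h
  · nlinarith [sq_nonneg x, mul_nonneg (sub_nonneg.2 h) (sq_nonneg y)]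
  · have h13 : y ^ 2 ≤ (x * (1 + ε / 3)) ^ 2 := pow_le_pow_left₀ hy0 hy1 2
    have h14 : (1 - ε) * (1 + ε / 3) ^ 2 ≤ 1 := by nlinarith [mul_pos hε hε]
    calc (1 - ε) * y ^ 2 ≤ (1 - ε) * (x * (1 + ε / 3)) ^ 2 :=
          mul_le_mul_of_nonneg_left h13 (by linarith)
      _ = ((1 - ε) * (1 + ε / 3) ^ 2) * x ^ 2 := by ring
      _ ≤ 1 * x ^ 2 := mul_le_mul_of_nonneg_right h14 (by positivity)
      _ = x ^ 2 := one_mul _

/-- the choice of the parameters in the second part -/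
theorem param (hD : StmtDEG) (k : ℕ) (hk : Fintype.card K = 2 ^ k) (hko : Odd k) (n : ℕ)
    (hn : 4 * Fintype.card K + 15 ≤ n) : ∃ D r L : ℕ, n = 4 * D + r ∧ Odd D ∧ r ≤ 7 ∧ 1 ≤ L ∧
      (wL K L).natDegree + L + 1 ≤ D ∧ n ≤ 16 * Fintype.card K ^ (L + 2) := by
  have hq := card_two k hk hko
  obtain ⟨D, r, h1, h2, h3⟩ : ∃ D r : ℕ, n = 4 * D + r ∧ Odd D ∧ r ≤ 7 := by
    rcases lt_or_ge (n % 8) 4 with h | h
    · exact ⟨2 * (n / 8) - 1, n % 8 + 4, by omega, ⟨n / 8 - 1, by omega⟩, by omega⟩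
    · exact ⟨2 * (n / 8) + 1, n % 8 - 4, by omega, ⟨n / 8, by omega⟩, by omega⟩
  have hex : ∃ L', D < (wL K L').natDegree + L' + 1 := ⟨D, by omega⟩
  classical
  obtain ⟨N, hN⟩ : ∃ N, N = Nat.find hex := ⟨_, rfl⟩
  have h4 : D < (wL K N).natDegree + N + 1 := hN ▸ Nat.find_spec hex
  have h5 : ∀ i < N, (wL K i).natDegree + i + 1 ≤ D := fun i hi => by
    have := Nat.find_min hex (m := i) (hN ▸ hi)
    omega
  have h6 : N ≠ 0 := by
    rintro rfl
    have e : wL K 0 = 1 := by simp [wL]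
    rw [e, natDegree_one] at h4
    have := h2.pos
    omega
  have h7 : N ≠ 1 := by
    rintro rfl
    have e1 := (hD K 1).2
    have e2 : (wL K 1).natDegree * (Fintype.card K - 1) =
        Fintype.card K * (Fintype.card K - 1) := by
      have e3 : Fintype.card K ^ (1 + 1) =
          Fintype.card K * (Fintype.card K - 1) + Fintype.card K := by
        obtain ⟨c, hc⟩ : ∃ c, Fintype.card K = c + 1 := ⟨Fintype.card K - 1, by omega⟩
        rw [hc]
        simp only [Nat.add_sub_cancel]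
        ring
      omega
    have e3 := Nat.eq_of_mul_eq_mul_right (by omega) e2
    omega
  obtain ⟨L, rfl⟩ : ∃ L, N = L + 1 := ⟨N - 1, by omega⟩
  refine ⟨D, r, L, h1, h2, h3, by omega, h5 L (by omega), ?_⟩
  have h8 := (hD K (L + 1)).2
  have h9 : (wL K (L + 1)).natDegree ≤ (wL K (L + 1)).natDegree * (Fintype.card K - 1) :=
    Nat.le_mul_of_pos_right _ (by omega)
  have h10 : L + 2 < Fintype.card K ^ (L + 2) := Nat.lt_pow_self (by omega)
  have h11 : L + 1 + 1 = L + 2 := rfl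
  rw [h11] at h8
  omega

end FinP

theorem fin (hR : StmtRED) (hD : StmtDEG) : StmtFIN := by
  intro K _ _ k hk hko
  refine ⟨FinP.partA hR hD k hk hko, ?_⟩
  have hq := FinP.card_two k hk hko
  have hq' : (2 : ℝ) ≤ Fintype.card K := by exact_mod_cast hq
  obtain ⟨n0, hn0⟩ : ∃ n0, n0 = 4 * Fintype.card K + 15 := ⟨_, rfl⟩
  have hδ1 : 0 < 1 / (256 * (Fintype.card K : ℝ) ^ 9) := by positivity
  have hδ2 : 0 < 1 / ((n0 : ℝ) ^ 2 * (Fintype.card K : ℝ) ^ n0) := by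
    have : (0 : ℝ) < n0 := by
      rw [hn0]
      positivity
    positivity
  refine ⟨min (1 / (256 * (Fintype.card K : ℝ) ^ 9))
    (1 / ((n0 : ℝ) ^ 2 * (Fintype.card K : ℝ) ^ n0)), lt_min hδ1 hδ2, ?_⟩
  intro n hn
  rcases lt_or_ge n n0 with h | h
  · refine ⟨X ^ n, 1, monic_X_pow n, natDegree_X_pow n, isCoprime_one_left, ?_⟩
    intro P _ _
    have h1 : (1 : ℝ) ≤ (Fintype.card K : ℝ) ^ P.natDegree := one_le_pow₀ (by linarith)
    refine le_trans ?_ h1
    have h2 : (n : ℝ) ^ 2 * (Fintype.card K : ℝ) ^ n ≤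
        (n0 : ℝ) ^ 2 * (Fintype.card K : ℝ) ^ n0 := by
      refine mul_le_mul ?_ (pow_le_pow_right₀ (by linarith) h.le) (by positivity) (by positivity)
      exact pow_le_pow_left₀ (by positivity) (by exact_mod_cast h.le) 2
    have h3 : (0 : ℝ) < (n0 : ℝ) ^ 2 * (Fintype.card K : ℝ) ^ n0 := by
      have : (0 : ℝ) < n0 := by
        rw [hn0]
        positivity
      positivity
    calc min (1 / (256 * (Fintype.card K : ℝ) ^ 9))
          (1 / ((n0 : ℝ) ^ 2 * (Fintype.card K : ℝ) ^ n0)) * (n : ℝ) ^ 2 *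
            (Fintype.card K : ℝ) ^ n
        = min (1 / (256 * (Fintype.card K : ℝ) ^ 9))
          (1 / ((n0 : ℝ) ^ 2 * (Fintype.card K : ℝ) ^ n0)) *
            ((n : ℝ) ^ 2 * (Fintype.card K : ℝ) ^ n) := by ring
      _ ≤ 1 / ((n0 : ℝ) ^ 2 * (Fintype.card K : ℝ) ^ n0) *
            ((n0 : ℝ) ^ 2 * (Fintype.card K : ℝ) ^ n0) :=
          mul_le_mul (min_le_right _ _) h2 (by positivity) hδ2.le
      _ = 1 := one_div_mul_cancel h3.ne'
  · obtain ⟨D, r, L, h1, h2, h3, h4, h5, h6⟩ := FinP.param (K := K) hD k hk hko n (by omega)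
    obtain ⟨g1, g2, g3⟩ := FinP.mon (K := K) hD L (D - (wL K L).natDegree) (by omega)
    have g4 : (X ^ (D - (wL K L).natDegree) * wL K L + 1 : K[X]).eval 0 = 1 := by
      rw [eval_add, eval_mul, FinP.wL_eval L h4, mul_zero, zero_add, eval_one]
    generalize (X ^ (D - (wL K L).natDegree) * wL K L + 1 : K[X]) = g at g1 g2 g3 g4
    have g5 : g.natDegree = D := by omega
    refine ⟨X ^ r * g ^ 4, wL K L ^ 4 + g ^ 4, (monic_X_pow r).mul (g1.pow 4), ?_, ?_, ?_⟩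
    · rw [(monic_X_pow r).natDegree_mul (g1.pow 4), natDegree_X_pow, g1.natDegree_pow, g5]
      omega
    · refine IsCoprime.mul_right ?_ ?_
      · refine IsCoprime.pow_right ?_
        rw [isCoprime_comm, ← isCoprime_comm]
        have e1 : (wL K L ^ 4 + g ^ 4).eval 0 = 1 := by
          rw [eval_add, eval_pow, eval_pow, FinP.wL_eval L h4, g4]
          simp
        obtain ⟨u, hu⟩ : (X : K[X]) ∣ (wL K L ^ 4 + g ^ 4) - 1 := by
          rw [X_dvd_iff, coeff_zero_eq_eval_zero, eval_sub, e1, eval_one, sub_self]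
        exact ⟨1, -u, by linear_combination hu⟩
      · refine IsCoprime.pow_right ?_
        have e2 : IsCoprime (wL K L ^ 4) g := g3.symm.pow_left
        obtain ⟨u, v, huv⟩ := e2
        exact ⟨u, v - u * g ^ 3, by linear_combination huv⟩
    · intro P hP hdv
      have hdv2 : g ^ 4 ∣ P - wL K L ^ 4 := by
        have e3 : g ^ 4 ∣ P - (wL K L ^ 4 + g ^ 4) := (dvd_mul_left _ _).trans hdv
        have e4 : P - wL K L ^ 4 = (P - (wL K L ^ 4 + g ^ 4)) + g ^ 4 := by ring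
        rw [e4]
        exact dvd_add e3 dvd_rfl
      have h7 := FinP.key hR hD k hk hko L g h4 g1 (g5 ▸ h2) g3 (by omega) P hP hdv2
      have h8 : (n : ℝ) ≤ 16 * (Fintype.card K : ℝ) ^ (L + 2) := by exact_mod_cast h6
      generalize Fintype.card K = q at *
      have h9 : (n : ℝ) ^ 2 ≤ 256 * (q : ℝ) ^ (2 * L + 4) := by
        calc (n : ℝ) ^ 2 ≤ (16 * (q : ℝ) ^ (L + 2)) ^ 2 := pow_le_pow_left₀ (by positivity) h8 2
          _ = 256 * (q : ℝ) ^ (2 * L + 4) := by ring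
      have h10 : (q : ℝ) ^ (2 * L + 4) * (q : ℝ) ^ n ≤ (q : ℝ) ^ 9 * (q : ℝ) ^ P.natDegree := by
        rw [← pow_add, ← pow_add]
        exact pow_le_pow_right₀ (by linarith) (by omega)
      have hq9 : (0 : ℝ) < (q : ℝ) ^ 9 := by positivity
      calc min (1 / (256 * (q : ℝ) ^ 9)) (1 / ((n0 : ℝ) ^ 2 * (q : ℝ) ^ n0)) * (n : ℝ) ^ 2 *
            (q : ℝ) ^ n
          ≤ 1 / (256 * (q : ℝ) ^ 9) * (256 * (q : ℝ) ^ (2 * L + 4)) * (q : ℝ) ^ n := by
            refine mul_le_mul_of_nonneg_right ?_ (by positivity)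
            exact mul_le_mul (min_le_left _ _) h9 (by positivity) hδ1.le
        _ = ((q : ℝ) ^ (2 * L + 4) * (q : ℝ) ^ n) / (q : ℝ) ^ 9 := by
            field_simp
        _ ≤ (q : ℝ) ^ P.natDegree := by
            rw [div_le_iff₀ hq9]
            linarith

end Pool.Agent.Ff2
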