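import Pool.Agent.Ff2.Stmts

/-!
Module LCM: every nonzero polynomial of degree at most `L` divides `wL K L`.
-/

set_option autoImplicit false

namespace Pool.Agent.Ff2

open Polynomial

theorem lcm_prime_pow (K : Type) [Field K] [Fintype K] (L : ℕ) (p : K[X]) (hp : Irreducible p)
    (i : ℕ) (hi : i * p.natDegree ≤ L) : p ^ i ∣ wL K L := by
  classical
  have hd : 0 < p.natDegree := hp.natDegree_pos
  have hinj : Function.Injective (fun t : ℕ => (t + 1) * p.natDegree - 1) := by
    intro s t hst
    have h1 : 1 ≤ (s + 1) * p.natDegree := Nat.mul_pos (Nat.succ_pos s) hd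
    have h2 : 1 ≤ (t + 1) * p.natDegree := Nat.mul_pos (Nat.succ_pos t) hd
    have h3 : (s + 1) * p.natDegree = (t + 1) * p.natDegree := by
      have h4 : (s + 1) * p.natDegree - 1 = (t + 1) * p.natDegree - 1 := hst
      omega
    have h5 := Nat.eq_of_mul_eq_mul_right hd h3
    omega
  have hsub : (Finset.range i).image (fun t : ℕ => (t + 1) * p.natDegree - 1) ⊆
      Finset.range L := by
    intro j hj
    obtain ⟨t, ht, rfl⟩ := Finset.mem_image.mp hj
    rw [Finset.mem_range] at ht ⊢
    have h1 : (t + 1) * p.natDegree ≤ i * p.natDegree := Nat.mul_le_mul_right _ ht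
    have h2 : 1 ≤ (t + 1) * p.natDegree := Nat.mul_pos (Nat.succ_pos t) hd
    show (t + 1) * p.natDegree - 1 < L
    omega
  rw [wL]
  refine dvd_trans ?_ (Finset.prod_dvd_prod_of_subset _ _
    (fun i => (X ^ (Fintype.card K ^ (i + 1)) - X : K[X])) hsub)
  rw [Finset.prod_image (fun s _ t _ h => hinj h)]
  have hpow : p ^ i = ∏ _t ∈ Finset.range i, p := by
    rw [Finset.prod_const, Finset.card_range]
  rw [hpow]
  refine Finset.prod_dvd_prod_of_dvd _ _ fun t _ => ?_
  have h2 : 1 ≤ (t + 1) * p.natDegree := Nat.mul_pos (Nat.succ_pos t) hd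
  rw [Nat.sub_add_cancel h2, ← Nat.card_eq_fintype_card,
    ← hp.natDegree_dvd_iff_dvd_X_pow_card_pow_sub_X]
  exact Dvd.intro_left _ rfl

theorem lcm : StmtLCM := by
  intro K _ _ L h
  induction h using UniqueFactorizationMonoid.induction_on_coprime with
  | h0 => exact fun h => absurd rfl h
  | h1 hx => exact fun _ _ => hx.dvd
  | hpr i hp =>
    intro _ hL
    rw [natDegree_pow] at hL
    exact lcm_prime_pow K L _ hp.irreducible i hL
  | hcp hxy hx hy =>
    intro h0 hL
    have hx0 := left_ne_zero_of_mul h0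
    have hy0 := right_ne_zero_of_mul h0
    rw [natDegree_mul hx0 hy0] at hL
    exact hxy.isCoprime.mul_dvd (hx hx0 (by omega)) (hy hy0 (by omega))

end Pool.Agent.Ff2
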