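import Pool.Agent.Ff2.Stmts

/-!
LIFT: the congruence modulo 8 (from EXP and RES).
-/

set_option autoImplicit false

namespace Pool.Agent.Ff2

open Polynomial

namespace LIFT

theorem res_ne {K : Type} [Field K] (g q : K[X]) (e n : ℕ) (hg : g.Monic)
    (hge : g.natDegree = e) (hq : q.natDegree ≤ n) (hc : IsCoprime g q) :
    resultant g q e n ≠ 0 := by
  obtain ⟨k, rfl⟩ := Nat.exists_eq_add_of_le hq
  subst hge
  rw [resultant_add_right_deg _ _ _ _ _ le_rfl]
  refine mul_ne_zero (pow_ne_zero _ ?_) (resultant_ne_zero g q hc)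
  rw [hg.coeff_natDegree]
  exact one_ne_zero

theorem res_ne' {K : Type} [Field K] (g q : K[X]) (e n : ℕ) (hg : g.Monic)
    (hge : g.natDegree = e) (hq : q.natDegree ≤ n) (hc : IsCoprime g q) :
    resultant q g n e ≠ 0 := by
  rw [resultant_comm]
  exact mul_ne_zero (pow_ne_zero _ (neg_ne_zero.2 one_ne_zero)) (res_ne g q e n hg hge hq hc)

section

variable {R : Type} [CommRing R]

theorem deriv2 (f : R[X]) : derivative (derivative f) = 2 * hasseDeriv 2 f := by
  have h := congrFun (factorial_smul_hasseDeriv (R := R) (k := 2)) f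
  simp only [Function.iterate_succ, Function.iterate_zero, Function.comp_apply, id_eq] at h
  rw [← h]
  simp [Nat.factorial, two_mul, two_smul]

/-- the polynomial `V` -/
noncomputable def V (f g h : R[X]) : R[X] :=
  derivative f * hasseDeriv 2 f * h ^ 4 + derivative f ^ 2 * (h ^ 3 * derivative h) +
    f * (g ^ 3 * derivative g)

theorem deriv_F (f g h : R[X]) :
    derivative (derivative f ^ 2 * h ^ 4 + f * g ^ 4) = derivative f * g ^ 4 + 4 * V f g h := by
  have h1 : derivative (derivative f ^ 2 * h ^ 4 + f * g ^ 4) =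
      2 * derivative f * derivative (derivative f) * h ^ 4 +
        derivative f ^ 2 * (4 * h ^ 3 * derivative h) + derivative f * g ^ 4 +
        f * (4 * g ^ 3 * derivative g) := by
    simp only [derivative_add, derivative_mul, derivative_pow, Nat.cast_ofNat]
    simp only [map_ofNat]
    ring
  rw [h1, deriv2, V]
  ring

variable (f g h : R[X]) (d e : ℕ) (hd : f.natDegree = d) (he : g.natDegree = e)

include hd in
theorem deg1 (hd1 : 1 ≤ d) (hdeg : 2 * (d - 1) + 4 * h.natDegree < d + 4 * e) :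
    (derivative f * hasseDeriv 2 f * h ^ 4).coeff (d + 4 * e - 1) = 0 := by
  by_cases h2 : d = 1
  · have h3 : hasseDeriv 2 f = 0 := hasseDeriv_eq_zero_of_lt_natDegree f 2 (by omega)
    rw [h3, mul_zero, zero_mul, coeff_zero]
  · apply coeff_eq_zero_of_natDegree_lt
    have a1 : (derivative f).natDegree ≤ d - 1 := hd ▸ natDegree_derivative_le f
    have a2 : (hasseDeriv 2 f).natDegree ≤ d - 2 := hd ▸ natDegree_hasseDeriv_le f 2
    have a3 : (h ^ 4).natDegree ≤ 4 * h.natDegree := natDegree_pow_le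
    have a4 := natDegree_mul_le_of_le (natDegree_mul_le_of_le a1 a2) a3
    omega

include hd in
theorem deg2 (hdeg : 2 * (d - 1) + 4 * h.natDegree < d + 4 * e) :
    (derivative f ^ 2 * (h ^ 3 * derivative h)).coeff (d + 4 * e - 1) = 0 := by
  by_cases h2 : h.natDegree = 0
  · have h3 : derivative h = 0 := by
      rw [eq_C_of_natDegree_eq_zero h2, derivative_C]
    rw [h3, mul_zero, mul_zero, coeff_zero]
  · apply coeff_eq_zero_of_natDegree_lt
    have a1 : (derivative f).natDegree ≤ d - 1 := hd ▸ natDegree_derivative_le f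
    have a2 : (derivative f ^ 2).natDegree ≤ 2 * (d - 1) := natDegree_pow_le_of_le 2 a1
    have a3 : (h ^ 3).natDegree ≤ 3 * h.natDegree := natDegree_pow_le
    have a5 : (derivative h).natDegree ≤ h.natDegree - 1 := natDegree_derivative_le h
    have a4 := natDegree_mul_le_of_le a2 (natDegree_mul_le_of_le a3 a5)
    omega

include hd he in
theorem deg3 (hf : f.Monic) (hg : g.Monic) (he1 : 1 ≤ e) :
    (f * (g ^ 3 * derivative g)).coeff (d + 4 * e - 1) = e := by
  have a1 : (g ^ 3).natDegree ≤ 3 * e := natDegree_pow_le_of_le 3 he.le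
  have a2 : (derivative g).natDegree ≤ e - 1 := he ▸ natDegree_derivative_le g
  have e1 : d + 4 * e - 1 = d + (3 * e + (e - 1)) := by omega
  rw [e1, coeff_mul_add_eq_of_natDegree_le hd.le (natDegree_mul_le_of_le a1 a2),
    coeff_mul_add_eq_of_natDegree_le a1 a2, coeff_pow_of_natDegree_le he.le, coeff_derivative]
  have e2 : e - 1 + 1 = e := by omega
  have e3 : (((e - 1 : ℕ) : R) + 1) = e := by
    have := congrArg (Nat.cast : ℕ → R) e2
    push_cast at this
    exact this
  rw [e2, e3]
  have c1 : f.coeff d = 1 := by rw [← hd]; exact hf.coeff_natDegree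
  have c2 : g.coeff e = 1 := by rw [← he]; exact hg.coeff_natDegree
  rw [c1, c2]
  ring

include hd he in
theorem coeff_V (hf : f.Monic) (hg : g.Monic) (hd1 : 1 ≤ d) (he1 : 1 ≤ e)
    (hdeg : 2 * (d - 1) + 4 * h.natDegree < d + 4 * e) :
    (V f g h).coeff (d + 4 * e - 1) = e := by
  rw [V, coeff_add, coeff_add, deg1 f h d e hd hd1 hdeg, deg2 f h d e hd hdeg,
    deg3 f g d e hd he hf hg he1]
  ring

include hd he in
theorem degree_V (hd1 : 1 ≤ d) (he1 : 1 ≤ e)
    (hdeg : 2 * (d - 1) + 4 * h.natDegree < d + 4 * e) :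
    (V f g h).natDegree ≤ d + 4 * e - 1 := by
  have a1 : (derivative f).natDegree ≤ d - 1 := hd ▸ natDegree_derivative_le f
  have a2 : (hasseDeriv 2 f).natDegree ≤ d - 2 := hd ▸ natDegree_hasseDeriv_le f 2
  have a3 : (h ^ 4).natDegree ≤ 4 * h.natDegree := natDegree_pow_le
  have a4 := natDegree_mul_le_of_le (natDegree_mul_le_of_le a1 a2) a3
  have b2 : (derivative f ^ 2).natDegree ≤ 2 * (d - 1) := natDegree_pow_le_of_le 2 a1
  have b3 : (h ^ 3).natDegree ≤ 3 * h.natDegree := natDegree_pow_le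
  have b5 : (derivative h).natDegree ≤ h.natDegree :=
    (natDegree_derivative_le h).trans (Nat.sub_le _ _)
  have b4 := natDegree_mul_le_of_le b2 (natDegree_mul_le_of_le b3 b5)
  have c1 : (g ^ 3).natDegree ≤ 3 * e := natDegree_pow_le_of_le 3 he.le
  have c2 : (derivative g).natDegree ≤ e - 1 := he ▸ natDegree_derivative_le g
  have c4 := natDegree_mul_le_of_le hd.le (natDegree_mul_le_of_le c1 c2)
  unfold V
  refine natDegree_add_le_of_degree_le (natDegree_add_le_of_degree_le ?_ ?_) ?_
  · exact a4.trans (by omega)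
  · exact b4.trans (by omega)
  · exact c4.trans (by omega)

end

end LIFT

theorem lift (h1 : StmtEXP) (h2 : StmtRES) : StmtLIFT := by
  intro R K _ _ _ _ π hπ f g h d e hd1 hf hg hd he hdeg hodd hsep hcop hcop'
  obtain ⟨j, hj⟩ := hodd
  have he1 : 1 ≤ e := by omega
  have a1 : (derivative f).natDegree ≤ d - 1 := hd ▸ natDegree_derivative_le f
  have b2 : (derivative f ^ 2).natDegree ≤ 2 * (d - 1) := natDegree_pow_le_of_le 2 a1
  have a3 : (h ^ 4).natDegree ≤ 4 * h.natDegree := natDegree_pow_le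
  have hFe : derivative f ^ 2 * h ^ 4 + f * g ^ 4 =
      f * g ^ 4 + derivative f * (derivative f * h ^ 4) := by ring
  have hm : (f * g ^ 4).Monic := hf.mul (hg.pow 4)
  have hmd : (f * g ^ 4).natDegree = d + 4 * e := by
    rw [hf.natDegree_mul (hg.pow 4), hg.natDegree_pow, hd, he]
  have hlow : (derivative f ^ 2 * h ^ 4).natDegree < (f * g ^ 4).natDegree := by
    rw [hmd]
    exact lt_of_le_of_lt (natDegree_mul_le_of_le b2 a3) hdeg
  have hFm : (derivative f ^ 2 * h ^ 4 + f * g ^ 4).Monic :=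
    hm.add_of_right (degree_lt_degree hlow)
  have hFd : (derivative f ^ 2 * h ^ 4 + f * g ^ 4).natDegree = d + 4 * e := by
    rw [natDegree_add_eq_right_of_natDegree_lt hlow, hmd]
  have hGd : (derivative f * g ^ 4).natDegree ≤ d + 4 * e - 1 := by
    have c1 : (g ^ 4).natDegree ≤ 4 * e := natDegree_pow_le_of_le 4 he.le
    exact (natDegree_mul_le_of_le a1 c1).trans (by omega)
  obtain ⟨v, hv⟩ := h1 R K π hπ (derivative f ^ 2 * h ^ 4 + f * g ^ 4) (derivative f * g ^ 4)
    (LIFT.V f g h) (d + 4 * e) (by omega) hFm hFd hGd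
    (LIFT.degree_V f g h d e hd he hd1 he1 hdeg) (LIFT.deriv_F f g h) hsep
  have hp : (derivative f * h ^ 4).natDegree + (d - 1) < d + 4 * e := by
    have := natDegree_mul_le_of_le a1 a3
    omega
  have hres := h2 R f g (derivative f * h ^ 4) d e hd1 hf hg hd he hp
  rw [← hFe] at hres
  have hN : d + 4 * e - 1 = d - 1 + 4 * e := by omega
  rw [LIFT.coeff_V f g h d e hd he hf hg hd1 he1 hdeg] at hv
  rw [hN] at hv ⊢
  rw [hres] at hv
  refine ⟨resultant g (derivative f) e (d - 1) *
    resultant (derivative f ^ 2 * h ^ 4 + f * g ^ 4) g (d + 4 * e) e,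
    v + j * (resultant f (derivative f) d (d - 1) * (resultant g (derivative f) e (d - 1) *
      resultant (derivative f ^ 2 * h ^ 4 + f * g ^ 4) g (d + 4 * e) e) ^ 4), ?_, ?_⟩
  · rw [map_mul, ← resultant_map_map, ← resultant_map_map]
    have hge : (g.map π).natDegree = e := by rw [hg.natDegree_map, he]
    refine mul_ne_zero ?_ ?_
    · refine LIFT.res_ne _ _ _ _ (hg.map π) hge (natDegree_map_le.trans a1) ?_
      rw [← derivative_map]
      exact hcop'
    · exact LIFT.res_ne' _ _ _ _ (hg.map π) hge (natDegree_map_le.trans hFd.le) hcop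
  · rw [hv, hj]
    push_cast
    ring

end Pool.Agent.Ff2
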