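import Pool.Agent.Ff2.Stmts

/-!
Parity of an irreducible polynomial over a finite field of characteristic two.
-/

set_option autoImplicit false

namespace Pool.Agent.Ff2

open Polynomial

theorem par (h : StmtFROB) : StmtPAR := by
  intro K _ _ _ E _ _ _ F N hmon hirr hdeg
  obtain ⟨x, hx, hinj, hfrob⟩ := h K E F N hmon hirr hdeg
  haveI : CharP E 2 := charP_of_injective_algebraMap (algebraMap K E).injective 2
  haveI : ExpChar E 2 := ExpChar.prime Nat.prime_two
  have h2 : (2 : E) = 0 := CharTwo.two_eq_zero
  set A : E := algebraMap K E (alp N F) with hA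
  have hAx : A = evP x + odP x := by
    rw [hA, map_alp, hx, alp_prod]
  have hBx : algebraMap K E (bet N F) = evP x * odP x := by
    rw [map_bet, hx, bet_prod]
  have hA0 : A ≠ 0 := by
    have h3 : A = (Matrix.vandermonde x).det := by
      rw [← evP_sub_odP, hAx]
      linear_combination (odP x) * h2
    rw [h3]
    exact Matrix.det_vandermonde_ne_zero_iff.mpr hinj
  refine ⟨fun h0 => hA0 (by rw [hA, h0, map_zero]), evP x / A, ?_, ?_⟩
  · rw [map_div₀, map_pow, hBx, ← hA]
    field_simp
    rw [hAx]
    linear_combination (evP x ^ 2) * h2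
  · obtain ⟨k, hp, hk⟩ := FiniteField.card K 2
    have hN : N ≠ 0 := by
      rintro rfl
      have h3 : F = 1 := hmon.natDegree_eq_zero.mp hdeg
      rw [h3] at hirr
      exact not_irreducible_one hirr
    obtain ⟨n, rfl⟩ := Nat.exists_eq_succ_of_ne_zero hN
    have hφ : ∀ y : E, y ^ Fintype.card K = iterateFrobenius E 2 k y := by
      intro y
      rw [iterateFrobenius_def, hk]
    have hAq : A ^ Fintype.card K = A := by
      rw [hA, ← map_pow, FiniteField.pow_card]
    have hev : evP x ^ Fintype.card K = evP (x ∘ finRotate (n + 1)) := by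
      rw [hφ, map_evP]
      congr 1
      funext i
      rw [Function.comp_apply, Function.comp_apply, ← hφ, hfrob]
    rw [div_pow, hAq, hev, evP_comp, sign_finRotate, Nat.add_sub_cancel]
    by_cases hn : Even n
    · rw [hn.neg_one_pow, if_pos rfl, if_neg (by simp [Nat.even_add_one, hn]), add_zero]
    · have hn' : Odd n := Nat.not_even_iff_odd.mp hn
      rw [hn'.neg_one_pow, if_neg (by decide), if_pos (by simp [Nat.even_add_one, hn])]
      field_simp
      rw [hAx]
      linear_combination (-evP x) * h2

end Pool.Agent.Ff2
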