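import Pool.Agent.Ff2.Stmts

/-!
RED: all members of the progression of small degree are reducible.
-/

set_option autoImplicit false

namespace Pool.Agent.Ff2

open Polynomial

lemma red_charP (K : Type) [Field K] [Fintype K] (k : ℕ) (hK : Fintype.card K = 2 ^ k) :
    CharP K 2 := by
  obtain ⟨p, hp⟩ := CharP.exists K
  have := hp
  obtain ⟨n, hprime, hcard⟩ := FiniteField.card K p
  have h1 : p ∣ 2 ^ k := by
    rw [← hK, hcard]
    exact dvd_pow_self p n.ne_zero
  have h2 : p ∣ 2 := hprime.dvd_of_dvd_pow h1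
  have h3 : p = 2 := (Nat.prime_dvd_prime_iff_eq hprime Nat.prime_two).1 h2
  rw [← h3]
  exact hp

/-- In characteristic two a polynomial with vanishing derivative over a finite field is a
square. -/
lemma red_square {K : Type} [Field K] [Fintype K] [CharP K 2] {p : K[X]}
    (hp : derivative p = 0) : ∃ r : K[X], p = r ^ 2 := by
  have : Fact (Nat.Prime 2) := ⟨Nat.prime_two⟩
  have : ExpChar K 2 := ExpChar.prime Nat.prime_two
  have h1 := expand_contract (R := K) 2 hp two_ne_zero
  have h2 := polynomial_expand_eq (R := K) (p := 2) (contract 2 p)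
  exact ⟨_, h1.symm.trans h2⟩

lemma red_second {K : Type} [Field K] [CharP K 2] (p : K[X]) :
    derivative (derivative p) = 0 := by
  have h := congrFun (factorial_smul_hasseDeriv (R := K) 2) p
  have h2 : ((2 : ℕ) : K[X]) = 0 := CharP.cast_eq_zero K[X] 2
  have h3 : derivative (derivative p) = (2 : ℕ) • hasseDeriv 2 p := by
    simpa using h.symm
  rw [h3, nsmul_eq_mul, h2, zero_mul]

/-- Fourth roots in a finite field of characteristic two. -/
lemma red_root {K : Type} [Field K] [Fintype K] [CharP K 2] (a : K) : ∃ b : K, b ^ 4 = a := by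
  have : Fact (Nat.Prime 2) := ⟨Nat.prime_two⟩
  have : ExpChar K 2 := ExpChar.prime Nat.prime_two
  obtain ⟨c, hc⟩ := surjective_frobenius K 2 a
  obtain ⟨b, hb⟩ := surjective_frobenius K 2 c
  refine ⟨b, ?_⟩
  rw [frobenius_def] at hc hb
  rw [← hc, ← hb]
  ring

lemma red_w_ne {K : Type} [Field K] [Fintype K] (hD : StmtDEG) (L : ℕ) : wL K L ≠ 0 :=
  (hD K L).1.ne_zero

/-- RED -/
theorem red (hC : StmtCORE) (hL : StmtLCM) (hD : StmtDEG) : StmtRED := by
  intro K _ _ k hK hk L g hL1 hg hgo hcop hdeg f hf hirr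
  have hchar : CharP K 2 := red_charP K k hK
  have h20 : ((2 : ℕ) : K[X]) = 0 := CharP.cast_eq_zero K[X] 2
  have hw := (hD K L).1
  set w := wL K L with hwdef
  have hw0 : w ≠ 0 := hw.ne_zero
  by_cases hf0 : f = 0
  · rw [hf0, zero_mul, add_zero] at hirr
    exact not_irreducible_pow (by norm_num) hirr
  by_cases hfd : derivative f = 0
  · obtain ⟨f0, hf0'⟩ := red_square hfd
    have hsq : w ^ 4 + f * g ^ 4 = (w ^ 2 + f0 * g ^ 2) ^ 2 := by
      have : (w ^ 2 + f0 * g ^ 2) ^ 2 = w ^ 4 + f0 ^ 2 * g ^ 4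
          + ((2 : ℕ) : K[X]) * (w ^ 2 * (f0 * g ^ 2)) := by
        push_cast
        ring
      rw [this, h20, hf0']
      ring
    rw [hsq] at hirr
    exact not_irreducible_pow (by norm_num) hirr
  -- the degree of the polynomial
  have hfg : (f * g ^ 4).natDegree = f.natDegree + 4 * g.natDegree := by
    rw [natDegree_mul hf0 (pow_ne_zero _ hg.ne_zero), natDegree_pow]
  have hFdeg : (w ^ 4 + f * g ^ 4).natDegree = f.natDegree + 4 * g.natDegree := by
    rw [natDegree_add_eq_right_of_natDegree_lt, hfg]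
    rw [hfg, natDegree_pow]
    omega
  have hfpos : 1 ≤ f.natDegree := by
    by_contra h
    have h0 : f.natDegree = 0 := by omega
    obtain ⟨c, hc⟩ := natDegree_eq_zero.1 h0
    apply hfd
    rw [← hc, derivative_C]
  by_cases hfi : Irreducible f
  · -- the irreducible case
    have hlc : f.leadingCoeff ≠ 0 := leadingCoeff_ne_zero.2 hf0
    obtain ⟨ν, hν⟩ := red_root (f.leadingCoeff⁻¹)
    have hν4 : ν ^ 4 ≠ 0 := by
      rw [hν]
      exact inv_ne_zero hlc
    have hν0 : ν ≠ 0 := fun h => hν4 (by rw [h]; norm_num)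
    have hCν : (C (ν ^ 4) : K[X]) ≠ 0 := C_ne_zero.2 hν4
    have hCu : IsUnit (C (ν ^ 4) : K[X]) := isUnit_C.2 (isUnit_iff_ne_zero.2 hν4)
    set ρ : K[X] := C (ν ^ 4) * f with hρ
    have hρm : ρ.Monic := by
      unfold Monic
      rw [hρ, leadingCoeff_mul, leadingCoeff_C, hν, inv_mul_cancel₀ hlc]
    have hρi : Irreducible ρ := (irreducible_isUnit_mul hCu).2 hfi
    have hρd : ρ.natDegree = f.natDegree := natDegree_C_mul hν4
    have hρder : derivative ρ ≠ 0 := by
      rw [hρ, derivative_C_mul]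
      exact mul_ne_zero hCν hfd
    obtain ⟨f₁, hf₁⟩ := red_square (red_second ρ)
    have hf₁0 : f₁ ≠ 0 := by
      intro h
      apply hρder
      rw [hf₁, h]
      norm_num
    have hdf₁ : 2 * f₁.natDegree ≤ f.natDegree - 1 := by
      have h1 := natDegree_derivative_le ρ
      rw [hf₁, natDegree_pow, hρd] at h1
      exact h1
    have hdvd : f₁ ∣ w := hL K L f₁ hf₁0 (by omega)
    obtain ⟨h₀, hh₀⟩ := hdvd
    have hh₀0 : h₀ ≠ 0 := by
      rintro rfl
      exact hw0 (by rw [hh₀, mul_zero])
    have hprod : f₁ * (C ν * h₀) = C ν * w := by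
      rw [hh₀]
      ring
    have hhd : (C ν * h₀).natDegree ≤ w.natDegree := by
      rw [natDegree_C_mul hν0, hh₀, natDegree_mul hf₁0 hh₀0]
      omega
    have hcop' : IsCoprime g (f₁ * (C ν * h₀)) := by
      rw [hprod]
      exact (isCoprime_mul_unit_left_right (isUnit_C.2 (isUnit_iff_ne_zero.2 hν0)) g w).2 hcop
    have hmain := hC K k hK hk ρ f₁ g (C ν * h₀) f.natDegree g.natDegree hρm hg hρi hρd rfl hgo
      hf₁ hcop' (by omega)
    apply hmain
    have heq : (f₁ * (C ν * h₀)) ^ 4 + ρ * g ^ 4 = C (ν ^ 4) * (w ^ 4 + f * g ^ 4) := by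
      rw [hprod, hρ, C_pow]
      ring
    rw [heq]
    exact (irreducible_isUnit_mul hCu).2 hirr
  · -- a factor of small degree
    have hfu : ¬ IsUnit f := by
      intro h
      have := natDegree_eq_zero_of_isUnit h
      omega
    obtain ⟨a, b, ha, hb, hab⟩ : ∃ a b : K[X], ¬ IsUnit a ∧ ¬ IsUnit b ∧ f = a * b := by
      by_contra hcon
      apply hfi
      refine ⟨hfu, fun a b hab => ?_⟩
      by_contra hc
      exact hcon ⟨a, b, fun h => hc (Or.inl h), fun h => hc (Or.inr h), hab⟩
    have key : ∀ a b : K[X], f = a * b → ¬ IsUnit a → a.natDegree ≤ L → False := by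
      intro a b hab ha haL
      have ha0 : a ≠ 0 := by
        rintro rfl
        exact hf0 (by rw [hab, zero_mul])
      have h1 : a ∣ w := hL K L a ha0 haL
      have h2 : a ∣ w ^ 4 + f * g ^ 4 := by
        refine dvd_add (dvd_pow h1 (by norm_num)) ?_
        rw [hab]
        exact ⟨b * g ^ 4, by ring⟩
      obtain ⟨c, hc⟩ := h2
      rcases hirr.isUnit_or_isUnit hc with h3 | h3
      · exact ha h3
      · have h4 := hFdeg
        have hc0 : c ≠ 0 := h3.ne_zero
        rw [hc, natDegree_mul ha0 hc0, natDegree_eq_zero_of_isUnit h3] at h4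
        omega
    have hsum : a.natDegree + b.natDegree = f.natDegree := by
      have ha0 : a ≠ 0 := by
        rintro rfl
        exact hf0 (by rw [hab, zero_mul])
      have hb0 : b ≠ 0 := by
        rintro rfl
        exact hf0 (by rw [hab, mul_zero])
      rw [hab, natDegree_mul ha0 hb0]
    rcases le_or_gt a.natDegree L with h | h
    · exact key a b hab ha h
    · exact key b a (by rw [hab, mul_comm]) hb (by omega)

end Pool.Agent.Ff2
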