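import Pool.Agent.Ff2.Stmts

/-!
RES: the resultant with `f' g^4`.
-/

set_option autoImplicit false

namespace Pool.Agent.Ff2

open Polynomial

/-- Multiplicativity of the resultant in the right argument, for a monic left argument. -/
theorem res_mul_right_le {R : Type} [CommRing R] (F g₁ g₂ : R[X]) (N n₁ n₂ : ℕ)
    (hF : F.natDegree ≤ N) (hc : F.coeff N = 1) (h₁ : g₁.natDegree ≤ n₁)
    (h₂ : g₂.natDegree ≤ n₂) :
    resultant F (g₁ * g₂) N (n₁ + n₂) = resultant F g₁ N n₁ * resultant F g₂ N n₂ := by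
  obtain ⟨k₁, hk₁⟩ := Nat.exists_eq_add_of_le h₁
  obtain ⟨k₂, hk₂⟩ := Nat.exists_eq_add_of_le h₂
  have e₁ : resultant F g₁ N n₁ = resultant F g₁ N g₁.natDegree := by
    rw [hk₁, resultant_add_right_deg F g₁ N g₁.natDegree k₁ le_rfl, hc, one_pow, one_mul]
  have e₂ : resultant F g₂ N n₂ = resultant F g₂ N g₂.natDegree := by
    rw [hk₂, resultant_add_right_deg F g₂ N g₂.natDegree k₂ le_rfl, hc, one_pow, one_mul]
  have e₃ : resultant F (g₁ * g₂) N (n₁ + n₂) =
      resultant F (g₁ * g₂) N (g₁.natDegree + g₂.natDegree) := by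
    have : n₁ + n₂ = (g₁.natDegree + g₂.natDegree) + (k₁ + k₂) := by omega
    rw [this, resultant_add_right_deg F (g₁ * g₂) N (g₁.natDegree + g₂.natDegree) (k₁ + k₂)
      natDegree_mul_le, hc, one_pow, one_mul]
  rw [e₁, e₂, e₃, resultant_mul_right F g₁ g₂ N hF]

/-- RES -/
theorem res : StmtRES := by
  intro R _ _ f g p d e hd hf hg hfd hge hp
  have hg4 : (g ^ 4).Monic := hg.pow 4
  have hg4d : (g ^ 4).natDegree = 4 * e := by rw [hg.natDegree_pow, hge]
  have hfg : (f * g ^ 4).Monic := hf.mul hg4
  have hfgd : (f * g ^ 4).natDegree = d + 4 * e := by rw [hf.natDegree_mul hg4, hfd, hg4d]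
  have hf' : (derivative f).natDegree ≤ d - 1 := by
    have := natDegree_derivative_le f
    rw [hfd] at this
    exact this
  have hsmall : (derivative f * p).natDegree < d + 4 * e := by
    have h1 : (derivative f * p).natDegree ≤ (derivative f).natDegree + p.natDegree :=
      natDegree_mul_le
    omega
  obtain ⟨F, hF⟩ : ∃ F, F = f * g ^ 4 + derivative f * p := ⟨_, rfl⟩
  have hFd : F.natDegree ≤ d + 4 * e := by
    rw [hF]
    exact (natDegree_add_le _ _).trans (max_le hfgd.le hsmall.le)
  have hFc : F.coeff (d + 4 * e) = 1 := by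
    rw [hF, coeff_add, coeff_eq_zero_of_natDegree_lt hsmall, add_zero, ← hfgd]
    exact hfg.coeff_natDegree
  have h1 : resultant F (derivative f * g ^ 4) (d + 4 * e) (d - 1 + 4 * e) =
      resultant F (derivative f) (d + 4 * e) (d - 1) * resultant F (g ^ 4) (d + 4 * e) (4 * e) :=
    res_mul_right_le F (derivative f) (g ^ 4) (d + 4 * e) (d - 1) (4 * e) hFd hFc hf' hg4d.le
  have h2 : resultant F (g ^ 4) (d + 4 * e) (4 * e) = resultant F g (d + 4 * e) e ^ 4 := by
    have := resultant_pow_right F g (d + 4 * e) 4 hFd (by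
      rw [hg.leadingCoeff, one_pow]; exact one_ne_zero)
    rw [hg4d, hge] at this
    exact this
  have h3 : resultant F (derivative f) (d + 4 * e) (d - 1) =
      resultant (f * g ^ 4) (derivative f) (d + 4 * e) (d - 1) := by
    rw [hF]
    exact resultant_add_mul_left (f * g ^ 4) (derivative f) p (d + 4 * e) (d - 1) hp.le hf'
  have h4 : resultant (f * g ^ 4) (derivative f) (d + 4 * e) (d - 1) =
      resultant f (derivative f) d (d - 1) * resultant (g ^ 4) (derivative f) (4 * e) (d - 1) := by
    have := resultant_mul_left f (g ^ 4) (derivative f) (d - 1) hf'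
    rw [hfd, hg4d] at this
    exact this
  have h5 : resultant (g ^ 4) (derivative f) (4 * e) (d - 1) =
      resultant g (derivative f) e (d - 1) ^ 4 := by
    have := resultant_pow_left g (derivative f) 4 (d - 1) (by
      rw [hg.leadingCoeff, one_pow]; exact one_ne_zero) hf'
    rw [hg4d, hge] at this
    exact this
  rw [← hF, h1, h2, h3, h4, h5]
  ring

end Pool.Agent.Ff2
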