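import Pool.Agent.Ff2.Stmts

/-!
WITT: a lift of a finite field of characteristic two to characteristic zero (Witt vectors).
-/

set_option autoImplicit false

namespace Pool.Agent.Ff2

theorem witt : StmtWITT := by
  intro K _ _ _
  haveI : Fact (Nat.Prime 2) := ⟨Nat.prime_two⟩
  refine ⟨WittVector 2 K, inferInstance, inferInstance, WittVector.constantCoeff,
    WittVector.constantCoeff_surjective 2, ?_, ?_⟩
  · exact_mod_cast WittVector.p_nonzero 2 K
  · intro x hx
    have h : x ∈ RingHom.ker (WittVector.constantCoeff : WittVector 2 K →+* K) := hx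
    rw [WittVector.ker_constantCoeff, Ideal.mem_span_singleton] at h
    obtain ⟨y, hy⟩ := h
    exact ⟨y, by rw [hy]; norm_num⟩

end Pool.Agent.Ff2
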