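import Pool.Agent.Ff2.Frob
import Pool.Agent.Ff2.Par
import Pool.Agent.Ff2.Eul
import Pool.Agent.Ff2.Exp
import Pool.Agent.Ff2.Res
import Pool.Agent.Ff2.Lift
import Pool.Agent.Ff2.Comb
import Pool.Agent.Ff2.Witt
import Pool.Agent.Ff2.Core
import Pool.Agent.Ff2.Lcm
import Pool.Agent.Ff2.Deg
import Pool.Agent.Ff2.Red
import Pool.Agent.Ff2.Fin

/-!
Assembly.
-/

set_option autoImplicit false

namespace Pool.Agent.Ff2

theorem final : StmtFIN :=
  fin (red (core (par frob) (lift (exp eul) res) comb witt) lcm deg) deg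

end Pool.Agent.Ff2
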