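import Pool.Agent.Ff2.Stmts

/-!
# The roots of an irreducible polynomial over a finite field form one Frobenius cycle (FROB)
-/

namespace Pool.Agent.Ff2

open Polynomial

namespace Frob

variable {K : Type} [Field K] [Fintype K] {E : Type} [Field E] [Algebra K E]

theorem iter (θ : E) (n : ℕ) :
    ((FiniteField.frobeniusAlgHom K E) ^ n) θ = θ ^ (Fintype.card K ^ n) := by
  induction n with
  | zero => simp
  | succ n ih =>
    rw [pow_succ', AlgHom.mul_apply, ih, pow_succ, pow_mul]
    simp

end Frob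

theorem frob : StmtFROB := by
  intro K _ _ E _ _ _ F N hF hirr hN
  have hNpos : 0 < N := by
    rw [← hN]
    exact hirr.natDegree_pos
  obtain ⟨θ, hθ⟩ := IsAlgClosed.exists_aeval_eq_zero E F (by
    rw [Polynomial.degree_eq_natDegree hirr.ne_zero, hN]
    exact_mod_cast hNpos.ne')
  set q := Fintype.card K with hq
  have hcard : Nat.card K = q := Nat.card_eq_fintype_card
  have hmin : F = minpoly K θ := minpoly.eq_of_irreducible_of_monic hirr hθ hF
  have hroot : ∀ n : ℕ, aeval (θ ^ q ^ n) F = 0 := by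
    intro n
    rw [hq, ← Frob.iter θ n, aeval_algHom_apply, hθ, map_zero]
  have hper : θ ^ q ^ N = θ := by
    have h1 : F ∣ X ^ (Nat.card K) ^ N - X :=
      (hirr.natDegree_dvd_iff_dvd_X_pow_card_pow_sub_X).1 (by rw [hN])
    obtain ⟨g, hg⟩ := h1
    have h2 := congrArg (aeval θ) hg
    rw [map_mul, hθ, zero_mul, map_sub, map_pow, aeval_X, hcard] at h2
    exact sub_eq_zero.1 h2
  have hmul : ∀ m : ℕ, θ ^ q ^ m = θ → N ∣ m := by
    intro m hm
    rw [← hN]
    apply (hirr.natDegree_dvd_iff_dvd_X_pow_card_pow_sub_X).2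
    rw [hmin]
    apply minpoly.dvd
    rw [map_sub, map_pow, aeval_X, hcard, hm, sub_self]
  have hinj : Function.Injective fun j : Fin N => θ ^ q ^ (j : ℕ) := by
    have key : ∀ i j : ℕ, i < j → j < N → θ ^ q ^ i ≠ θ ^ q ^ j := by
      intro i j hij hj h
      have h1 : ((FiniteField.frobeniusAlgHom K E) ^ i) θ =
          ((FiniteField.frobeniusAlgHom K E) ^ i) (θ ^ q ^ (j - i)) := by
        rw [Frob.iter, Frob.iter, ← pow_mul, ← pow_add, Nat.sub_add_cancel hij.le]
        exact h
      have h2 := ((FiniteField.frobeniusAlgHom K E) ^ i).toRingHom.injective h1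
      have h3 := hmul (j - i) h2.symm
      have h4 := Nat.le_of_dvd (by omega) h3
      omega
    intro i j hij
    rcases lt_trichotomy (i : ℕ) (j : ℕ) with h | h | h
    · exact absurd hij (key _ _ h j.2)
    · exact Fin.ext h
    · exact absurd hij.symm (key _ _ h i.2)
  refine ⟨fun j => θ ^ q ^ (j : ℕ), ?_, hinj, ?_⟩
  · have hmonic : (∏ j : Fin N, (X - C (θ ^ q ^ (j : ℕ)))).Monic :=
      monic_prod_of_monic _ _ fun j _ => monic_X_sub_C _
    have hdvd : (∏ j : Fin N, (X - C (θ ^ q ^ (j : ℕ)))) ∣ F.map (algebraMap K E) := by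
      apply Finset.prod_dvd_of_coprime
      · intro i _ j _ hij
        exact pairwise_coprime_X_sub_C hinj hij
      · intro j _
        rw [dvd_iff_isRoot, IsRoot, eval_map_algebraMap]
        exact hroot _
    refine (eq_of_monic_of_dvd_of_natDegree_le hmonic (hF.map _) hdvd ?_)
    rw [hF.natDegree_map, hN, natDegree_prod_of_monic _ _ fun j _ => monic_X_sub_C _]
    simp only [natDegree_X_sub_C, Finset.sum_const, Finset.card_univ, Fintype.card_fin,
      smul_eq_mul, mul_one, le_refl]
  · intro i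
    obtain ⟨n, rfl⟩ : ∃ n, N = n + 1 := ⟨N - 1, by omega⟩
    change (θ ^ q ^ (i : ℕ)) ^ q = θ ^ q ^ ((finRotate (n + 1) i : Fin (n + 1)) : ℕ)
    rw [← pow_mul, ← pow_succ]
    by_cases h : (i : ℕ) < n
    · have h1 : i = ⟨(i : ℕ), h.trans_le n.le_succ⟩ := rfl
      rw [h1, finRotate_of_lt h]
    · have h1 : i = Fin.last n := by
        apply Fin.ext
        have := i.2
        rw [Fin.val_last]
        omega
      rw [h1, finRotate_last, Fin.val_last, hper]
      simp

end Pool.Agent.Ff2
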