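import Pool.Agent.Ff2.Disc

/-!
Statements of the modules: least irreducible polynomial in an arithmetic progression over a
finite field with `2^k` elements, `k` odd (MP_e1dc24_nt, function field model).
-/

set_option autoImplicit false

namespace Pool.Agent.Ff2

open Polynomial

/-- FROB: the roots of an irreducible polynomial form one Frobenius cycle -/
def StmtFROB : Prop :=
  ∀ (K : Type) [Field K] [Fintype K] (E : Type) [Field E] [Algebra K E] [IsAlgClosed E]
    (F : K[X]) (N : ℕ), F.Monic → Irreducible F → F.natDegree = N →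
    ∃ x : Fin N → E, F.map (algebraMap K E) = ∏ j : Fin N, (X - C (x j)) ∧
      Function.Injective x ∧ ∀ i : Fin N, x i ^ Fintype.card K = x (finRotate N i)

/-- PAR: parity of an irreducible polynomial (from FROB) -/
def StmtPAR : Prop :=
  ∀ (K : Type) [Field K] [Fintype K] [CharP K 2] (E : Type) [Field E] [Algebra K E]
    [IsAlgClosed E] (F : K[X]) (N : ℕ), F.Monic → Irreducible F → F.natDegree = N →
    alp N F ≠ 0 ∧ ∃ z : E, z ^ 2 + z = algebraMap K E (bet N F / alp N F ^ 2) ∧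
      z ^ Fintype.card K = z + (if Even N then 1 else 0)

/-- EUL: first order term of the resultant (Lagrange interpolation) -/
def StmtEUL : Prop :=
  ∀ (K : Type) [Field K] (F V : K[X]) (N : ℕ), 1 ≤ N → F.Monic → F.natDegree = N →
    F.Separable → V.natDegree ≤ N - 1 →
    (resultant (F.map C) ((derivative F).map C + C (X : K[X]) * V.map C) N (N - 1)).coeff 1 =
      resultant F (derivative F) N (N - 1) * V.coeff (N - 1)

/-- EXP: resultant modulo 8 (from EUL) -/
def StmtEXP : Prop :=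
  ∀ (R K : Type) [CommRing R] [IsDomain R] [Field K] [CharP K 2] (π : R →+* K),
    (∀ x : R, π x = 0 → ∃ y : R, x = 2 * y) →
    ∀ (F G V : R[X]) (N : ℕ), 1 ≤ N → F.Monic → F.natDegree = N → G.natDegree ≤ N - 1 →
      V.natDegree ≤ N - 1 → derivative F = G + 4 * V → (F.map π).Separable →
      ∃ v : R, resultant F (derivative F) N (N - 1) =
        resultant F G N (N - 1) * (1 + 4 * V.coeff (N - 1)) + 8 * v

/-- RES: the resultant with `f' g^4` -/
def StmtRES : Prop :=
  ∀ (R : Type) [CommRing R] [IsDomain R] (f g p : R[X]) (d e : ℕ), 1 ≤ d → f.Monic → g.Monic →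
    f.natDegree = d → g.natDegree = e → p.natDegree + (d - 1) < d + 4 * e →
    resultant (f * g ^ 4 + derivative f * p) (derivative f * g ^ 4) (d + 4 * e) (d - 1 + 4 * e) =
      resultant f (derivative f) d (d - 1) *
        (resultant g (derivative f) e (d - 1) *
          resultant (f * g ^ 4 + derivative f * p) g (d + 4 * e) e) ^ 4

/-- LIFT: the congruence modulo 8 (from EXP and RES) -/
def StmtLIFT : Prop :=
  ∀ (R K : Type) [CommRing R] [IsDomain R] [Field K] [CharP K 2] (π : R →+* K),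
    (∀ x : R, π x = 0 → ∃ y : R, x = 2 * y) →
    ∀ (f g h : R[X]) (d e : ℕ), 1 ≤ d → f.Monic → g.Monic → f.natDegree = d →
      g.natDegree = e → 2 * (d - 1) + 4 * h.natDegree < d + 4 * e → Odd e →
      ((derivative f ^ 2 * h ^ 4 + f * g ^ 4).map π).Separable →
      IsCoprime (g.map π) ((derivative f ^ 2 * h ^ 4 + f * g ^ 4).map π) →
      IsCoprime (g.map π) (derivative (f.map π)) →
      ∃ u v : R, π u ≠ 0 ∧
        resultant (derivative f ^ 2 * h ^ 4 + f * g ^ 4)
            (derivative (derivative f ^ 2 * h ^ 4 + f * g ^ 4)) (d + 4 * e) (d + 4 * e - 1) =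
          5 * u ^ 4 * resultant f (derivative f) d (d - 1) + 8 * v

/-- COMB: the algebra modulo 8 and the final contradiction -/
def StmtCOMB : Prop :=
  ∀ (R K E : Type) [CommRing R] [IsDomain R] [Field K] [Field E] [Algebra K E] [CharP K 2]
    (π : R →+* K), (∀ x : R, π x = 0 → ∃ y : R, x = 2 * y) → (2 : R) ≠ 0 →
    ∀ (q k : ℕ), q = 2 ^ k → Odd k → (∀ x : K, x ^ q = x) →
    ∀ (a b a' b' u v : R), π u ≠ 0 → π a ≠ 0 → π a' ≠ 0 →
      a ^ 2 - 4 * b = 5 * u ^ 4 * (a' ^ 2 - 4 * b') + 8 * v →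
      ∀ (z z' ε : E), z ^ 2 + z = algebraMap K E (π b / π a ^ 2) →
        z' ^ 2 + z' = algebraMap K E (π b' / π a' ^ 2) →
        z ^ q = z + ε → z' ^ q = z' + ε → False

/-- WITT: a lift of `K` to characteristic zero -/
def StmtWITT : Prop :=
  ∀ (K : Type) [Field K] [Fintype K] [CharP K 2],
    ∃ (R : Type) (_ : CommRing R) (_ : IsDomain R) (π : R →+* K), Function.Surjective π ∧
      (2 : R) ≠ 0 ∧ ∀ x : R, π x = 0 → ∃ y : R, x = 2 * y

/-- CORE: the irreducible case (from PAR, LIFT, COMB, WITT) -/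
def StmtCORE : Prop :=
  ∀ (K : Type) [Field K] [Fintype K] (k : ℕ), Fintype.card K = 2 ^ k → Odd k →
    ∀ (f f₁ g h : K[X]) (d e : ℕ), f.Monic → g.Monic → Irreducible f → f.natDegree = d →
      g.natDegree = e → Odd e → derivative f = f₁ ^ 2 → IsCoprime g (f₁ * h) →
      2 * (d - 1) + 4 * h.natDegree < d + 4 * e →
      ¬ Irreducible ((f₁ * h) ^ 4 + f * g ^ 4)

/-- least common multiple of all nonzero polynomials of degree at most `L` -/
noncomputable def wL (K : Type) [Field K] [Fintype K] (L : ℕ) : K[X] :=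
  ∏ i ∈ Finset.range L, (X ^ (Fintype.card K ^ (i + 1)) - X)

/-- LCM -/
def StmtLCM : Prop :=
  ∀ (K : Type) [Field K] [Fintype K] (L : ℕ) (h : K[X]), h ≠ 0 → h.natDegree ≤ L → h ∣ wL K L

/-- DEG -/
def StmtDEG : Prop :=
  ∀ (K : Type) [Field K] [Fintype K] (L : ℕ), (wL K L).Monic ∧
    (wL K L).natDegree * (Fintype.card K - 1) + Fintype.card K = Fintype.card K ^ (L + 1)

/-- RED: all members of the progression of small degree are reducible (from CORE, LCM) -/
def StmtRED : Prop :=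
  ∀ (K : Type) [Field K] [Fintype K] (k : ℕ), Fintype.card K = 2 ^ k → Odd k →
    ∀ (L : ℕ) (g : K[X]), 1 ≤ L → g.Monic → Odd g.natDegree → IsCoprime g (wL K L) →
      (wL K L).natDegree + L + 1 ≤ g.natDegree →
      ∀ f : K[X], f.natDegree ≤ 2 * L + 1 → ¬ Irreducible (wL K L ^ 4 + f * g ^ 4)

/-- FIN: the final theorem (from RED, DEG) -/
def StmtFIN : Prop :=
  ∀ (K : Type) [Field K] [Fintype K] (k : ℕ), Fintype.card K = 2 ^ k → Odd k →
    (∀ ε : ℝ, 0 < ε → ∀ B : ℕ, ∃ m c : K[X], m.Monic ∧ B ≤ m.natDegree ∧ IsCoprime c m ∧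
      ∀ P : K[X], Irreducible P → m ∣ P - c →
        (1 - ε) * (((Fintype.card K : ℝ) - 1) / 4) ^ 2 * (m.natDegree : ℝ) ^ 2 *
          (Fintype.card K : ℝ) ^ m.natDegree ≤ (Fintype.card K : ℝ) ^ P.natDegree) ∧
    (∃ δ : ℝ, 0 < δ ∧ ∀ n : ℕ, 1 ≤ n → ∃ m c : K[X], m.Monic ∧ m.natDegree = n ∧
      IsCoprime c m ∧ ∀ P : K[X], Irreducible P → m ∣ P - c →
        δ * (n : ℝ) ^ 2 * (Fintype.card K : ℝ) ^ n ≤ (Fintype.card K : ℝ) ^ P.natDegree)

end Pool.Agent.Ff2
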