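import Mathlib

/-!
Even and odd parts of the Vandermonde determinant; their sum and product are universal
polynomials in the coefficients.
-/

set_option autoImplicit false

namespace Pool.Agent.Ff2

open Polynomial

section Basic

variable {S : Type*} [CommRing S] {N : ℕ}

/-- the part of the Vandermonde determinant with even permutations -/
def evP (s : Fin N → S) : S :=
  ∑ τ : Equiv.Perm (Fin N), if Equiv.Perm.sign τ = 1 then ∏ i : Fin N, s (τ i) ^ (i : ℕ) else 0

/-- the part with odd permutations (without sign) -/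
def odP (s : Fin N → S) : S :=
  ∑ τ : Equiv.Perm (Fin N), if Equiv.Perm.sign τ = 1 then 0 else ∏ i : Fin N, s (τ i) ^ (i : ℕ)

theorem evP_sub_odP (s : Fin N → S) : evP s - odP s = (Matrix.vandermonde s).det := by
  rw [evP, odP, ← Finset.sum_sub_distrib, Matrix.det_apply]
  refine Finset.sum_congr rfl fun τ _ => ?_
  rcases Int.units_eq_one_or (Equiv.Perm.sign τ) with h | h
  · simp [h, Matrix.vandermonde_apply]
  · simp [h, Matrix.vandermonde_apply]

theorem evP_comp (s : Fin N → S) (c : Equiv.Perm (Fin N)) :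
    evP (s ∘ c) = if Equiv.Perm.sign c = 1 then evP s else odP s := by
  have h1 : evP (s ∘ c) = ∑ τ : Equiv.Perm (Fin N),
      if Equiv.Perm.sign (c⁻¹ * τ) = 1 then ∏ i : Fin N, s (τ i) ^ (i : ℕ) else 0 := by
    rw [evP]
    refine Fintype.sum_equiv (Equiv.mulLeft c) _ _ fun τ => ?_
    simp
  rw [h1]
  rcases Int.units_eq_one_or (Equiv.Perm.sign c) with h | h
  · simp [h, evP]
  · have h2 : ∀ τ : Equiv.Perm (Fin N), (Equiv.Perm.sign (c⁻¹ * τ) = 1) ↔
        ¬ Equiv.Perm.sign τ = 1 := by
      intro τ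
      rcases Int.units_eq_one_or (Equiv.Perm.sign τ) with h' | h' <;> simp [h, h']
    simp only [h2, ite_not, odP, h]
    simp

theorem odP_comp (s : Fin N → S) (c : Equiv.Perm (Fin N)) :
    odP (s ∘ c) = if Equiv.Perm.sign c = 1 then odP s else evP s := by
  have h1 : odP (s ∘ c) = ∑ τ : Equiv.Perm (Fin N),
      if Equiv.Perm.sign (c⁻¹ * τ) = 1 then 0 else ∏ i : Fin N, s (τ i) ^ (i : ℕ) := by
    rw [odP]
    refine Fintype.sum_equiv (Equiv.mulLeft c) _ _ fun τ => ?_
    simp
  rw [h1]
  rcases Int.units_eq_one_or (Equiv.Perm.sign c) with h | h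
  · simp [h, odP]
  · have h2 : ∀ τ : Equiv.Perm (Fin N), (Equiv.Perm.sign (c⁻¹ * τ) = 1) ↔
        ¬ Equiv.Perm.sign τ = 1 := by
      intro τ
      rcases Int.units_eq_one_or (Equiv.Perm.sign τ) with h' | h' <;> simp [h, h']
    simp only [h2, ite_not, evP, h]
    simp

theorem map_evP {T : Type*} [CommRing T] (φ : S →+* T) (s : Fin N → S) :
    φ (evP s) = evP (φ ∘ s) := by
  simp only [evP, map_sum]
  refine Finset.sum_congr rfl fun τ _ => ?_
  split_ifs <;> simp

theorem map_odP {T : Type*} [CommRing T] (φ : S →+* T) (s : Fin N → S) :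
    φ (odP s) = odP (φ ∘ s) := by
  simp only [odP, map_sum]
  refine Finset.sum_congr rfl fun τ _ => ?_
  split_ifs <;> simp

end Basic

section Universal

variable (N : ℕ)

theorem exists_sumPoly : ∃ A : MvPolynomial (Fin N) ℤ,
    MvPolynomial.aeval (fun i : Fin N => MvPolynomial.esymm (Fin N) ℤ (i + 1)) A =
      evP (fun i : Fin N => (MvPolynomial.X i : MvPolynomial (Fin N) ℤ)) +
        odP (fun i : Fin N => (MvPolynomial.X i : MvPolynomial (Fin N) ℤ)) := by
  have hsym : (evP (fun i : Fin N => (MvPolynomial.X i : MvPolynomial (Fin N) ℤ)) +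
        odP (fun i : Fin N => (MvPolynomial.X i : MvPolynomial (Fin N) ℤ))).IsSymmetric := by
    intro e
    have h1 := map_evP (MvPolynomial.rename e : MvPolynomial (Fin N) ℤ →ₐ[ℤ] _).toRingHom
      (fun i : Fin N => (MvPolynomial.X i : MvPolynomial (Fin N) ℤ))
    have h2 := map_odP (MvPolynomial.rename e : MvPolynomial (Fin N) ℤ →ₐ[ℤ] _).toRingHom
      (fun i : Fin N => (MvPolynomial.X i : MvPolynomial (Fin N) ℤ))
    have h3 : ((MvPolynomial.rename e : MvPolynomial (Fin N) ℤ →ₐ[ℤ] _).toRingHom ∘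
        fun i : Fin N => (MvPolynomial.X i : MvPolynomial (Fin N) ℤ)) =
        (fun i : Fin N => (MvPolynomial.X i : MvPolynomial (Fin N) ℤ)) ∘ e := by
      funext i; simp
    rw [h3] at h1 h2
    have h4 : MvPolynomial.rename e (evP (fun i : Fin N =>
        (MvPolynomial.X i : MvPolynomial (Fin N) ℤ))) = _ := h1
    have h5 : MvPolynomial.rename e (odP (fun i : Fin N =>
        (MvPolynomial.X i : MvPolynomial (Fin N) ℤ))) = _ := h2
    rw [map_add, h4, h5, evP_comp, odP_comp]
    split_ifs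
    · rfl
    · rw [add_comm]
  obtain ⟨A, hA⟩ := MvPolynomial.esymmAlgHom_surjective (σ := Fin N) (n := N) ℤ (by simp)
    ⟨_, hsym⟩
  refine ⟨A, ?_⟩
  rw [← MvPolynomial.esymmAlgHom_apply, hA]

theorem exists_prodPoly : ∃ A : MvPolynomial (Fin N) ℤ,
    MvPolynomial.aeval (fun i : Fin N => MvPolynomial.esymm (Fin N) ℤ (i + 1)) A =
      evP (fun i : Fin N => (MvPolynomial.X i : MvPolynomial (Fin N) ℤ)) *
        odP (fun i : Fin N => (MvPolynomial.X i : MvPolynomial (Fin N) ℤ)) := by
  have hsym : (evP (fun i : Fin N => (MvPolynomial.X i : MvPolynomial (Fin N) ℤ)) *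
        odP (fun i : Fin N => (MvPolynomial.X i : MvPolynomial (Fin N) ℤ))).IsSymmetric := by
    intro e
    have h1 := map_evP (MvPolynomial.rename e : MvPolynomial (Fin N) ℤ →ₐ[ℤ] _).toRingHom
      (fun i : Fin N => (MvPolynomial.X i : MvPolynomial (Fin N) ℤ))
    have h2 := map_odP (MvPolynomial.rename e : MvPolynomial (Fin N) ℤ →ₐ[ℤ] _).toRingHom
      (fun i : Fin N => (MvPolynomial.X i : MvPolynomial (Fin N) ℤ))
    have h3 : ((MvPolynomial.rename e : MvPolynomial (Fin N) ℤ →ₐ[ℤ] _).toRingHom ∘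
        fun i : Fin N => (MvPolynomial.X i : MvPolynomial (Fin N) ℤ)) =
        (fun i : Fin N => (MvPolynomial.X i : MvPolynomial (Fin N) ℤ)) ∘ e := by
      funext i; simp
    rw [h3] at h1 h2
    have h4 : MvPolynomial.rename e (evP (fun i : Fin N =>
        (MvPolynomial.X i : MvPolynomial (Fin N) ℤ))) = _ := h1
    have h5 : MvPolynomial.rename e (odP (fun i : Fin N =>
        (MvPolynomial.X i : MvPolynomial (Fin N) ℤ))) = _ := h2
    rw [map_mul, h4, h5, evP_comp, odP_comp]
    split_ifs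
    · rfl
    · rw [mul_comm]
  obtain ⟨A, hA⟩ := MvPolynomial.esymmAlgHom_surjective (σ := Fin N) (n := N) ℤ (by simp)
    ⟨_, hsym⟩
  refine ⟨A, ?_⟩
  rw [← MvPolynomial.esymmAlgHom_apply, hA]

/-- universal polynomial of the sum -/
noncomputable def sumPoly : MvPolynomial (Fin N) ℤ := (exists_sumPoly N).choose

/-- universal polynomial of the product -/
noncomputable def prodPoly : MvPolynomial (Fin N) ℤ := (exists_prodPoly N).choose

variable {S : Type*} [CommRing S]

/-- signed coefficients = elementary symmetric functions of the roots -/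
def esy (p : S[X]) : Fin N → S := fun i => (-1) ^ ((i : ℕ) + 1) * p.coeff (N - (i + 1))

/-- `P + Q` in terms of the coefficients -/
noncomputable def alp (p : S[X]) : S := MvPolynomial.aeval (esy N p) (sumPoly N)

/-- `P Q` in terms of the coefficients -/
noncomputable def bet (p : S[X]) : S := MvPolynomial.aeval (esy N p) (prodPoly N)

theorem map_alp {T : Type*} [CommRing T] (φ : S →+* T) (p : S[X]) :
    φ (alp N p) = alp N (p.map φ) := by
  have h : esy N (p.map φ) = φ ∘ esy N p := by
    funext i; simp [esy]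
  rw [alp, alp, h, MvPolynomial.aeval_def, MvPolynomial.aeval_def]
  rw [MvPolynomial.hom_eval₂]
  congr 1
  exact RingHom.ext_int _ _

theorem map_bet {T : Type*} [CommRing T] (φ : S →+* T) (p : S[X]) :
    φ (bet N p) = bet N (p.map φ) := by
  have h : esy N (p.map φ) = φ ∘ esy N p := by
    funext i; simp [esy]
  rw [bet, bet, h, MvPolynomial.aeval_def, MvPolynomial.aeval_def]
  rw [MvPolynomial.hom_eval₂]
  congr 1
  exact RingHom.ext_int _ _

theorem esy_prod (s : Fin N → S) (i : Fin N) :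
    esy N (∏ j : Fin N, (X - C (s j))) i =
      MvPolynomial.aeval s (MvPolynomial.esymm (Fin N) ℤ (i + 1)) := by
  have h1 : (∏ j : Fin N, (X - C (s j))) =
      ((Finset.univ.val.map s).map fun t => X - C t).prod := by
    rw [Multiset.map_map]; rfl
  have hi := i.2
  rw [MvPolynomial.aeval_esymm_eq_multiset_esymm, esy, h1, Multiset.prod_X_sub_C_coeff _ (by simp)]
  simp only [Multiset.card_map, Finset.card_val, Finset.card_univ, Fintype.card_fin]
  have h2 : N - (N - ((i : ℕ) + 1)) = (i : ℕ) + 1 := by omega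
  rw [h2, ← mul_assoc, ← mul_pow]
  simp

theorem alp_prod (s : Fin N → S) : alp N (∏ j : Fin N, (X - C (s j))) = evP s + odP s := by
  have h := congrArg (MvPolynomial.aeval s) (exists_sumPoly N).choose_spec
  rw [map_add] at h
  have h1 := map_evP (MvPolynomial.aeval s : MvPolynomial (Fin N) ℤ →ₐ[ℤ] S).toRingHom
      (fun i : Fin N => (MvPolynomial.X i : MvPolynomial (Fin N) ℤ))
  have h2 := map_odP (MvPolynomial.aeval s : MvPolynomial (Fin N) ℤ →ₐ[ℤ] S).toRingHom
      (fun i : Fin N => (MvPolynomial.X i : MvPolynomial (Fin N) ℤ))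
  have h3 : ((MvPolynomial.aeval s : MvPolynomial (Fin N) ℤ →ₐ[ℤ] S).toRingHom ∘
        fun i : Fin N => (MvPolynomial.X i : MvPolynomial (Fin N) ℤ)) = s := by
      funext i; simp
  rw [h3] at h1 h2
  have h4 : (MvPolynomial.aeval s) (evP (fun i : Fin N =>
        (MvPolynomial.X i : MvPolynomial (Fin N) ℤ))) = _ := h1
  have h5 : (MvPolynomial.aeval s) (odP (fun i : Fin N =>
        (MvPolynomial.X i : MvPolynomial (Fin N) ℤ))) = _ := h2
  rw [h4, h5] at h
  rw [← h, alp, sumPoly, ← AlgHom.comp_apply, MvPolynomial.comp_aeval]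
  congr 2
  funext i
  exact esy_prod N s i

theorem bet_prod (s : Fin N → S) : bet N (∏ j : Fin N, (X - C (s j))) = evP s * odP s := by
  have h := congrArg (MvPolynomial.aeval s) (exists_prodPoly N).choose_spec
  rw [map_mul] at h
  have h1 := map_evP (MvPolynomial.aeval s : MvPolynomial (Fin N) ℤ →ₐ[ℤ] S).toRingHom
      (fun i : Fin N => (MvPolynomial.X i : MvPolynomial (Fin N) ℤ))
  have h2 := map_odP (MvPolynomial.aeval s : MvPolynomial (Fin N) ℤ →ₐ[ℤ] S).toRingHom
      (fun i : Fin N => (MvPolynomial.X i : MvPolynomial (Fin N) ℤ))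
  have h3 : ((MvPolynomial.aeval s : MvPolynomial (Fin N) ℤ →ₐ[ℤ] S).toRingHom ∘
        fun i : Fin N => (MvPolynomial.X i : MvPolynomial (Fin N) ℤ)) = s := by
      funext i; simp
  rw [h3] at h1 h2
  have h4 : (MvPolynomial.aeval s) (evP (fun i : Fin N =>
        (MvPolynomial.X i : MvPolynomial (Fin N) ℤ))) = _ := h1
  have h5 : (MvPolynomial.aeval s) (odP (fun i : Fin N =>
        (MvPolynomial.X i : MvPolynomial (Fin N) ℤ))) = _ := h2
  rw [h4, h5] at h
  rw [← h, bet, prodPoly, ← AlgHom.comp_apply, MvPolynomial.comp_aeval]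
  congr 2
  funext i
  exact esy_prod N s i

/-- `(P+Q)^2 - 4PQ` is the product of the squared differences of the roots -/
theorem alp_sq_sub (s : Fin N → S) :
    alp N (∏ j : Fin N, (X - C (s j))) ^ 2 - 4 * bet N (∏ j : Fin N, (X - C (s j))) =
      (∏ i : Fin N, ∏ j ∈ Finset.Ioi i, (s j - s i)) ^ 2 := by
  rw [alp_prod, bet_prod, ← Matrix.det_vandermonde, ← evP_sub_odP]
  ring

end Universal

end Pool.Agent.Ff2
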